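import Pool.Agent.Helper67.TY.Runs

/-!
MP_8ee768_co, project TH-Y': the two near-STS representatives (labelled as in `h16_cls.tgz`,
file `T01.txt`), their automorphisms and their zero-pair runs.
-/

set_option autoImplicit false

namespace Pool.Agent.Helper67.TY

open Finset
open Pool.Agent.Helper89.CV (OddCover ofMask)
open Pool.Agent.Helper97.CV
open Pool.Agent.Helper79.CV

/-- code of REP(A) -/
def repA : ℕ := 0x7084080000101100000081040004040002081022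

/-- automorphisms of REP(A) -/
def autA : List (List ℕ) := [[0, 1, 2, 3, 4, 5, 6, 7, 8, 9, 10, 11, 12], [0, 2, 1, 4, 3, 5, 7, 6, 8, 10, 9, 11, 12], [1, 0, 2, 3, 5, 4, 6, 8, 7, 10, 9, 11, 12], [1, 2, 0, 5, 3, 4, 8, 6, 7, 9, 10, 11, 12], [2, 0, 1, 4, 5, 3, 7, 8, 6, 9, 10, 11, 12], [2, 1, 0, 5, 4, 3, 8, 7, 6, 10, 9, 11, 12]]

/-- zero-pair runs for REP(A), `MM ≤ 6` -/
def runsA6 : List (ℕ × List (ℕ × ℕ)) := [(513, [(513, 0), (514, 4), (516, 3), (1025, 1), (1026, 2), (1028, 5)]), (65, [(65, 0), (66, 2), (129, 1), (132, 3), (258, 4), (260, 5)]), (257, [(68, 3), (130, 2), (257, 0)]), (520, [(520, 0), (528, 3), (544, 4), (1032, 2), (1040, 1), (1056, 5)]), (24, [(24, 0), (40, 2), (48, 3)]), (192, [(192, 0), (320, 2), (384, 3)])]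

/-- zero-pair runs for REP(A), `MM ≤ 4` -/
def runsA4 : List (ℕ × List (ℕ × ℕ)) := [(576, [(576, 0), (640, 3), (768, 4), (1088, 2), (1152, 1), (1280, 5)]), (33, [(12, 3), (18, 2), (33, 0)])]

/-- code of REP(B) -/
def repB : ℕ := 0x7101100000202040000021002010400004042101

/-- automorphisms of REP(B) -/
def autB : List (List ℕ) := [[0, 1, 2, 3, 4, 5, 6, 7, 8, 9, 10, 11, 12], [0, 1, 2, 8, 6, 7, 4, 5, 3, 10, 9, 11, 12], [0, 2, 1, 5, 4, 3, 6, 8, 7, 10, 9, 11, 12], [0, 2, 1, 7, 6, 8, 4, 3, 5, 9, 10, 11, 12], [1, 0, 2, 3, 5, 4, 7, 6, 8, 10, 9, 11, 12], [1, 0, 2, 8, 7, 6, 5, 4, 3, 9, 10, 11, 12], [1, 2, 0, 4, 5, 3, 7, 8, 6, 9, 10, 11, 12], [1, 2, 0, 6, 7, 8, 5, 3, 4, 10, 9, 11, 12], [2, 0, 1, 5, 3, 4, 8, 6, 7, 9, 10, 11, 12], [2, 0, 1, 7, 8, 6, 3, 4, 5, 10, 9, 11, 12], [2, 1, 0, 4, 3, 5, 8, 7, 6, 10, 9, 11, 12], [2, 1, 0, 6, 8, 7, 3, 5, 4, 9, 10, 11, 12]]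

/-- zero-pair runs for REP(B), `MM ≤ 6` -/
def runsB6 : List (ℕ × List (ℕ × ℕ)) := [(520, [(520, 0), (528, 8), (544, 6), (576, 11), (640, 3), (768, 5), (1032, 4), (1040, 10), (1056, 2), (1088, 9), (1152, 7), (1280, 1)]), (9, [(9, 0), (10, 4), (18, 8), (20, 10), (33, 2), (36, 6), (66, 9), (68, 11), (129, 3), (132, 7), (257, 1), (258, 5)]), (24, [(24, 0), (40, 4), (48, 2), (192, 3), (320, 1), (384, 5)]), (3, [(3, 0), (5, 2), (6, 8)])]

/-- zero-pair runs for REP(B), `MM ≤ 4` -/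
def runsB4 : List (ℕ × List (ℕ × ℕ)) := [(520, [(520, 0), (528, 8), (544, 6), (576, 11), (640, 3), (768, 5), (1032, 4), (1040, 10), (1056, 2), (1088, 9), (1152, 7), (1280, 1)]), (17, [(12, 6), (17, 0), (34, 4), (65, 1), (130, 5), (260, 7)])]

theorem autA_ok : autA.all (gOK repA) = true := by decide +kernel

theorem autB_ok : autB.all (gOK repB) = true := by decide +kernel

theorem runsA6_ok : runsA6.all (runOK autA) = true := by decide +kernel

theorem runsA4_ok : runsA4.all (runOK autA) = true := by decide +kernel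

theorem runsB6_ok : runsB6.all (runOK autB) = true := by decide +kernel

theorem runsB4_ok : runsB4.all (runOK autB) = true := by decide +kernel

theorem coverA6 : coverOK runsA6 (11 - 6) = true := by decide +kernel

theorem coverA4 : coverOK runsA4 (11 - 4) = true := by decide +kernel

theorem coverB6 : coverOK runsB6 (11 - 6) = true := by decide +kernel

theorem coverB4 : coverOK runsB4 (11 - 4) = true := by decide +kernel

/-- normal form over REP(A), `MM ≤ 6` -/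
theorem exists_runA6 {B : Finset (Finset (Fin 13))} (hB : OddCover B) (hk : MM B 12 ≤ 6)
    (hT : enc 11 3 (link (link B 12) 11) = repA) :
    ∃ σ : Equiv.Perm (Fin 13), σ 12 = 12 ∧ σ 11 = 11 ∧
      enc 11 3 (link (link (mapF σ B) 12) 11) = repA ∧
      ∃ r, ∃ h : r < runsA6.length, ZM (mapF σ B) (runsA6[r]).1 ∧
        ∀ s, ∀ hs : s < r, ∀ p ∈ (runsA6[s]'(hs.trans h)).2, ¬ ZM (mapF σ B) p.1 :=
  exists_run autA_ok runsA6_ok coverA6 hB hk hT

/-- normal form over REP(B), `MM ≤ 6` -/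
theorem exists_runB6 {B : Finset (Finset (Fin 13))} (hB : OddCover B) (hk : MM B 12 ≤ 6)
    (hT : enc 11 3 (link (link B 12) 11) = repB) :
    ∃ σ : Equiv.Perm (Fin 13), σ 12 = 12 ∧ σ 11 = 11 ∧
      enc 11 3 (link (link (mapF σ B) 12) 11) = repB ∧
      ∃ r, ∃ h : r < runsB6.length, ZM (mapF σ B) (runsB6[r]).1 ∧
        ∀ s, ∀ hs : s < r, ∀ p ∈ (runsB6[s]'(hs.trans h)).2, ¬ ZM (mapF σ B) p.1 :=
  exists_run autB_ok runsB6_ok coverB6 hB hk hT

/-- normal form over REP(A), `MM ≤ 4` -/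
theorem exists_runA4 {B : Finset (Finset (Fin 13))} (hB : OddCover B) (hk : MM B 12 ≤ 4)
    (hT : enc 11 3 (link (link B 12) 11) = repA) :
    ∃ σ : Equiv.Perm (Fin 13), σ 12 = 12 ∧ σ 11 = 11 ∧
      enc 11 3 (link (link (mapF σ B) 12) 11) = repA ∧
      ∃ r, ∃ h : r < runsA4.length, ZM (mapF σ B) (runsA4[r]).1 ∧
        ∀ s, ∀ hs : s < r, ∀ p ∈ (runsA4[s]'(hs.trans h)).2, ¬ ZM (mapF σ B) p.1 :=
  exists_run autA_ok runsA4_ok coverA4 hB hk hT

/-- normal form over REP(B), `MM ≤ 4` -/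
theorem exists_runB4 {B : Finset (Finset (Fin 13))} (hB : OddCover B) (hk : MM B 12 ≤ 4)
    (hT : enc 11 3 (link (link B 12) 11) = repB) :
    ∃ σ : Equiv.Perm (Fin 13), σ 12 = 12 ∧ σ 11 = 11 ∧
      enc 11 3 (link (link (mapF σ B) 12) 11) = repB ∧
      ∃ r, ∃ h : r < runsB4.length, ZM (mapF σ B) (runsB4[r]).1 ∧
        ∀ s, ∀ hs : s < r, ∀ p ∈ (runsB4[s]'(hs.trans h)).2, ¬ ZM (mapF σ B) p.1 :=
  exists_run autB_ok runsB4_ok coverB4 hB hk hT

end Pool.Agent.Helper67.TY
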