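import Pool.Agent.Helper67.TY.Extend
import Pool.Agent.Helper67.TY.RunsData
import Pool.Agent.Helper79.CV.Linkage

/-!
MP_8ee768_co, project TH-Y': from the zero-pair runs to all light links.

Every odd `(12,4,3)`-cover `D` on `{0, .., 11}` with at most 60 blocks has a point with 19 blocks,
the link there is a near-STS, hence (classification `NearOK`) after a permutation `fam 11 3 repA`
or `fam 11 3 repB`, and the zero-pair normal form puts `D` into one of the ten runs. So a property
of families invariant under relabelling holds for all such `D` as soon as it holds for the members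
of the runs (`RunR`).
-/

set_option autoImplicit false

namespace Pool.Agent.Helper67.TY

open Finset
open Pool.Agent.Helper89.CV (OddCover ofMask)
open Pool.Agent.Helper97.CV
open Pool.Agent.Helper79.CV
open Pool.Agent.Helper33.CV (valL)
open Pool.Agent.Helper82.TY (below)

/-- all the points of the mask are zero points (19 blocks) of the family `D` -/
def ZD (D : Finset (Finset (Fin 13))) (m : ℕ) : Prop := ∀ a ∈ ofMask m, (link D a).card = 19

theorem card_link_link {B : Finset (Finset (Fin 13))} (hB : OddCover B) {x y : Fin 13}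
    (hxy : x ≠ y) : (link (link B x) y).card = 19 + 2 * mm B x y := by
  rw [← cnt_pair hB hxy]
  unfold cnt
  refine card_bij (fun s _ => insert x (insert y s)) ?_ ?_ ?_
  · intro s hs
    rw [mem_link_link] at hs
    obtain ⟨-, -, -, h⟩ := hs
    rw [mem_filter]
    refine ⟨h, ?_⟩
    intro a ha
    rw [mem_insert, mem_singleton] at ha
    rcases ha with rfl | rfl
    · exact mem_insert_self _ _
    · exact mem_insert_of_mem (mem_insert_self _ _)
  · intro s hs t ht hst
    rw [mem_link_link] at hs ht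
    obtain ⟨h1, h2, -, -⟩ := hs
    obtain ⟨h3, h4, -, -⟩ := ht
    have h5 : ∀ u : Finset (Fin 13), x ∉ u → y ∉ u → ((insert x (insert y u)).erase x).erase y = u := by
      intro u hu hv
      rw [erase_insert, erase_insert hv]
      rw [mem_insert]
      rintro (h | h)
      · exact hxy h
      · exact hu h
    rw [← h5 s h1 h2, ← h5 t h3 h4, hst]
  · intro b hb
    rw [mem_filter] at hb
    have hx : x ∈ b := hb.2 (mem_insert_self _ _)
    have hy : y ∈ b := hb.2 (mem_insert_of_mem (mem_singleton_self _))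
    refine ⟨(b.erase x).erase y, ?_, ?_⟩
    · rw [mem_link_link]
      have h1 : x ∉ (b.erase x).erase y := fun h => notMem_erase x b (mem_of_mem_erase h)
      have h2 : insert x (insert y ((b.erase x).erase y)) = b := by
        rw [insert_erase (mem_erase.2 ⟨hxy.symm, hy⟩), insert_erase hx]
      exact ⟨h1, notMem_erase y _, hxy, by rw [h2]; exact hb.1⟩
    · rw [insert_erase (mem_erase.2 ⟨hxy.symm, hy⟩), insert_erase hx]

theorem zm_iff_zd {B : Finset (Finset (Fin 13))} (hB : OddCover B) {m : ℕ} (hm : m < 2048) :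
    ZM B m ↔ ZD (link B 12) m := by
  unfold ZM ZD
  refine forall₂_congr fun a ha => ?_
  have h1 : (12 : Fin 13) ≠ a := by
    rintro rfl
    exact absurd (notMem_of_lt hm ha) (by decide)
  rw [card_link_link hB h1]
  omega

/-- the pair masks of the runs before the run `r` -/
def prevs (runs : List (ℕ × List (ℕ × ℕ))) (r : ℕ) : List ℕ :=
  ((runs.take r).map fun p => p.2.map Prod.fst).flatten

theorem mem_prevs {runs : List (ℕ × List (ℕ × ℕ))} {r q : ℕ} (h : q ∈ prevs runs r) :
    ∃ s, ∃ hs : s < runs.length, s < r ∧ ∃ p ∈ (runs[s]).2, p.1 = q := by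
  unfold prevs at h
  rw [List.mem_flatten] at h
  obtain ⟨l, hl, hq⟩ := h
  rw [List.mem_map] at hl
  obtain ⟨p, hp, rfl⟩ := hl
  rw [List.mem_map] at hq
  obtain ⟨p', hp', rfl⟩ := hq
  obtain ⟨s, hs, rfl⟩ := List.getElem_of_mem hp
  rw [List.length_take] at hs
  refine ⟨s, by omega, by omega, p', ?_, rfl⟩
  rw [List.getElem_take] at hp'
  exact hp'

/-- the property `P` holds for every odd family with link `fam 11 3 T` at `11`, zero points at the
mask `m`, no zero pair in the list `forb`, and at most `57 + cap / 2` blocks -/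
def RunR (T m : ℕ) (forb : List ℕ) (cap : ℕ) (P : Finset (Finset (Fin 13)) → Prop) : Prop :=
  ∀ D : Finset (Finset (Fin 13)), OddFam 3 (below 12) D → link D 11 = fam 11 3 T →
    2 * D.card ≤ 114 + cap → ZD D m → (∀ q ∈ forb, ¬ ZD D q) → P D

/-- the pair link of the root is an odd family on `{0, .., 10}` -/
theorem oddFam_pair {B : Finset (Finset (Fin 13))} (hB : OddCover B) :
    OddFam 2 (below 11) (link (link B 12) 11) := by
  have h := oddFam_link₂ hB (show (12 : Fin 13) ≠ 11 by decide)
  have e : ((univ : Finset (Fin 13)).erase 12).erase 11 = below 11 := by decide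
  rw [e] at h
  exact h

theorem oddFam_twelve {B : Finset (Finset (Fin 13))} (hB : OddCover B) :
    OddFam 3 (below 12) (link B 12) := by
  rw [below_twelve]
  exact oddFam_link hB 12

theorem sub_pair {B : Finset (Finset (Fin 13))} (hB : OddCover B) :
    ∀ s ∈ link (link B 12) 11, Sub 11 3 s := by
  intro s hs
  have h := (oddFam_pair hB).1 s hs
  refine ⟨mk_lt_iff.2 fun a ha => ?_, h.2⟩
  have := h.1 ha
  rw [mem_below] at this
  exact this

theorem enc_pair {B : Finset (Finset (Fin 13))} (hB : OddCover B) {T : ℕ}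
    (hT : T < 2 ^ (11).choose 3) :
    enc 11 3 (link (link B 12) 11) = T ↔ link (link B 12) 11 = fam 11 3 T := by
  constructor
  · intro h
    rw [← h, fam_enc (by norm_num) (sub_pair hB)]
  · intro h
    rw [h, enc_fam (by norm_num) hT]

/-- **a table from its runs**: with `G` a list of automorphisms of `T` -/
theorem run_of_table {T cap : ℕ} (hTlt : T < 2 ^ (11).choose 3) {G : List (List ℕ)}
    {runs : List (ℕ × List (ℕ × ℕ))} (hG : G.all (gOK T) = true)
    (hR : runs.all (runOK G) = true) (hC : coverOK runs (11 - cap) = true)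
    (hL : runs.all (fun r => Nat.blt r.1 2048) = true)
    {P : Finset (Finset (Fin 13)) → Prop}
    (hP : ∀ r, ∀ h : r < runs.length, RunR T (runs[r]).1 (prevs runs r) cap P)
    {D : Finset (Finset (Fin 13))} (hD : OddFam 3 (below 12) D) (hDT : link D 11 = fam 11 3 T)
    (hc : 2 * D.card ≤ 114 + cap) :
    ∃ σ : Equiv.Perm (Fin 13), valL σ ∈ G ∧ σ 12 = 12 ∧ σ 11 = 11 ∧ P (mapF σ D) := by
  have hD' := hD
  rw [below_twelve] at hD'
  obtain ⟨B, hB, hBD⟩ := exists_cover hD'
  have hM : MM B 12 ≤ cap := by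
    have h1 := two_mul_card_link hB 12
    rw [hBD] at h1
    omega
  have hT : enc 11 3 (link (link B 12) 11) = T := by
    rw [enc_pair hB hTlt, hBD]
    exact hDT
  obtain ⟨σ, hσG, h12, h11, h3, r, hr, hz, hnz⟩ := exists_run' hG hR hC hB hM hT
  have hBσ := oddCover_mapF hB σ
  have hl : link (mapF σ B) 12 = mapF σ D := by
    rw [← hBD]
    conv_lhs => rw [← h12]
    exact link_mapF σ _ _
  have hmem := List.getElem_mem hr
  have hR' := hR
  rw [List.all_eq_true] at hR'
  have hL' := hL
  rw [List.all_eq_true] at hL'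
  -- the masks are below 2048
  have hlt : ∀ s, ∀ hs : s < runs.length, ∀ p ∈ (runs[s]).2, p.1 < 2048 := by
    intro s hs p hp
    have h1 := hR' _ (List.getElem_mem hs)
    unfold runOK at h1
    rw [Bool.and_eq_true, List.all_eq_true, List.all_eq_true] at h1
    have h2 := h1.1 p hp
    rw [Bool.and_eq_true, Bool.and_eq_true] at h2
    exact blt_true h2.1.1
  refine ⟨σ, hσG, h12, h11, ?_⟩
  refine hP r hr (mapF σ D) ?_ ?_ ?_ ?_ ?_
  · rw [← hl]
    exact oddFam_twelve hBσ
  · rw [← hl, ← enc_pair hBσ hTlt]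
    exact h3
  · rw [card_mapF]
    exact hc
  · rw [← hl, ← zm_iff_zd hBσ (blt_true (hL' _ hmem))]
    exact hz
  · intro q hq hqz
    obtain ⟨s, hs, hsr, p, hp, rfl⟩ := mem_prevs hq
    refine hnz s hsr p hp ((zm_iff_zd hBσ (hlt s hs p hp)).2 ?_)
    rw [hl]
    exact hqz

theorem runsA6_lt : runsA6.all (fun r => Nat.blt r.1 2048) = true := by decide +kernel

theorem runsB6_lt : runsB6.all (fun r => Nat.blt r.1 2048) = true := by decide +kernel

theorem runsA4_lt : runsA4.all (fun r => Nat.blt r.1 2048) = true := by decide +kernel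

theorem runsB4_lt : runsB4.all (fun r => Nat.blt r.1 2048) = true := by decide +kernel

theorem repA_lt : repA < 2 ^ (11).choose 3 := by decide +kernel

theorem repB_lt : repB < 2 ^ (11).choose 3 := by decide +kernel

/-- classification of the odd `(11,3,2)`-covers with 19 blocks (near-STS) -/
def NearOK : Prop := ∀ E : Finset (Finset (Fin 13)), OddFam 2 (below 11) E → E.card = 19 →
  ∃ τ : Equiv.Perm (Fin 13), τ 12 = 12 ∧ τ 11 = 11 ∧
    (mapF τ E = fam 11 3 repA ∨ mapF τ E = fam 11 3 repB)

/-- a light link has a point with 19 blocks, in normal form: its link is `repA` or `repB` -/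
theorem exists_near (hN : NearOK) {D : Finset (Finset (Fin 13))} (hD : OddFam 3 (below 12) D)
    (hc : 2 * D.card ≤ 120) : ∃ σ : Equiv.Perm (Fin 13), σ 12 = 12 ∧
      (link (mapF σ D) 11 = fam 11 3 repA ∨ link (mapF σ D) 11 = fam 11 3 repB) := by
  have hD' := hD
  rw [below_twelve] at hD'
  obtain ⟨B, hB, hBD⟩ := exists_cover hD'
  have h1 := zeros_card B 12
  have h0 : MM B 12 ≤ 6 := by
    have h1 := two_mul_card_link hB 12
    rw [hBD] at h1
    omega
  obtain ⟨y, hy⟩ : (zeros B 12).Nonempty := card_pos.1 (by omega)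
  obtain ⟨hy12, hy0⟩ := mem_zeros.1 hy
  obtain ⟨σ, hσ⟩ : ∃ σ : Equiv.Perm (Fin 13), σ = Equiv.swap y 11 := ⟨_, rfl⟩
  have hσy : σ y = 11 := by rw [hσ]; exact Equiv.swap_apply_left _ _
  have hσ12 : σ 12 = 12 := by
    rw [hσ]
    exact Equiv.swap_apply_of_ne_of_ne hy12 (by decide)
  have hBσ := oddCover_mapF hB σ
  have hl : link (mapF σ B) 12 = mapF σ D := by
    rw [← hBD]
    conv_lhs => rw [← hσ12]
    exact link_mapF σ _ _
  have h2 := card_link_link hBσ (show (12 : Fin 13) ≠ 11 by decide)
  have h3 : mm (mapF σ B) 12 11 = 0 := by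
    have h4 := mm_mapF hB σ hy12
    rw [hσ12, hσy] at h4
    omega
  rw [h3] at h2
  obtain ⟨τ, hτ12, hτ11, hτ⟩ := hN _ (oddFam_pair hBσ) h2
  refine ⟨τ * σ, by rw [Equiv.Perm.mul_apply, hσ12, hτ12], ?_⟩
  have h5 : link (mapF (τ * σ) D) 11 = mapF τ (link (link (mapF σ B) 12) 11) := by
    rw [mapF_mul, hl]
    conv_lhs => rw [← hτ11]
    exact link_mapF τ _ _
  rw [h5]
  exact hτ

/-- **all light links from the runs**: a property invariant under relabelling which holds for the
members of the ten runs holds for every odd family on `{0, .., 11}` with at most 60 blocks -/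
theorem all_of_runs (hN : NearOK) {P : Finset (Finset (Fin 13)) → Prop}
    (hP : ∀ (σ : Equiv.Perm (Fin 13)) (D : Finset (Finset (Fin 13))), σ 12 = 12 → P (mapF σ D) → P D)
    (hA : ∀ r, ∀ h : r < runsA6.length, RunR repA (runsA6[r]).1 (prevs runsA6 r) 6 P)
    (hB : ∀ r, ∀ h : r < runsB6.length, RunR repB (runsB6[r]).1 (prevs runsB6 r) 6 P)
    {D : Finset (Finset (Fin 13))} (hD : OddFam 3 (below 12) D) (hc : 2 * D.card ≤ 120) : P D := by
  obtain ⟨σ, hσ, h⟩ := exists_near hN hD hc
  have hD2 : OddFam 3 (below 12) (mapF σ D) := by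
    have h1 := hD.map σ
    have h2 : mapS σ (below 12) = below 12 := by
      rw [below_twelve]
      ext a
      rw [mem_mapS', mem_erase, mem_erase]
      have h3 : σ.symm 12 = 12 := by rw [Equiv.symm_apply_eq, hσ]
      constructor
      · rintro ⟨h4, -⟩
        refine ⟨fun h5 => h4 ?_, mem_univ _⟩
        rw [h5, h3]
      · rintro ⟨h4, -⟩
        refine ⟨fun h5 => h4 ?_, mem_univ _⟩
        rw [Equiv.symm_apply_eq, hσ] at h5
        exact h5
    rw [h2] at h1
    exact h1
  refine hP σ D hσ ?_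
  rcases h with h | h
  · obtain ⟨τ, -, h12, -, h3⟩ := run_of_table repA_lt autA_ok runsA6_ok coverA6 runsA6_lt hA hD2 h
      (by rw [card_mapF]; exact hc)
    exact hP τ _ h12 h3
  · obtain ⟨τ, -, h12, -, h3⟩ := run_of_table repB_lt autB_ok runsB6_ok coverB6 runsB6_lt hB hD2 h
      (by rw [card_mapF]; exact hc)
    exact hP τ _ h12 h3

/-- **the class theorem for light links from the runs** -/
theorem rootOK_of_runs (hN : NearOK) {reps : List ℕ}
    (hA : ∀ r, ∀ h : r < runsA6.length, RunR repA (runsA6[r]).1 (prevs runsA6 r) 6 (fun D =>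
      ∃ σ : Equiv.Perm (Fin 13), σ 12 = 12 ∧ ∃ r ∈ reps, mapF σ D = fam 12 4 r))
    (hB : ∀ r, ∀ h : r < runsB6.length, RunR repB (runsB6[r]).1 (prevs runsB6 r) 6 (fun D =>
      ∃ σ : Equiv.Perm (Fin 13), σ 12 = 12 ∧ ∃ r ∈ reps, mapF σ D = fam 12 4 r)) :
    RootOK 6 (fun _ => True) reps := by
  intro D hD hc _
  refine all_of_runs hN (P := fun D => ∃ σ : Equiv.Perm (Fin 13), σ 12 = 12 ∧
    ∃ r ∈ reps, mapF σ D = fam 12 4 r) ?_ hA hB hD hc
  rintro σ D hσ ⟨τ, hτ, r, hr, h⟩
  exact ⟨τ * σ, by rw [Equiv.Perm.mul_apply, hσ, hτ], r, hr, by rw [mapF_mul, h]⟩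

end Pool.Agent.Helper67.TY
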