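import Pool.Agent.Helper67.TY.Root
import Pool.Agent.Helper58.TB.Near

/-!
MP_8ee768_co, project TH-Y': the classification of the near-STS in the form used by the runs.
-/

set_option autoImplicit false

namespace Pool.Agent.Helper67.TY

open Finset
open Pool.Agent.Helper89.CV (OddCover ofMask)
open Pool.Agent.Helper97.CV
open Pool.Agent.Helper79.CV
open Pool.Agent.Helper82.TY (below)

theorem nearOK : NearOK := by
  intro E hE hc
  have e : below 11 = (univ.erase (12 : Fin 13)).erase 11 := by decide
  have hE' := hE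
  rw [e] at hE'
  obtain ⟨σ, h12, h11, h⟩ := Pool.Agent.Helper58.TB.near_sts (show (12 : Fin 13) ≠ 11 by decide) hE' hc
  have hsub : ∀ s ∈ mapF σ E, Sub 11 3 s := by
    intro s hs
    rw [mem_mapF'] at hs
    have h1 := hE'.1 _ hs
    have e2 : s = mapS σ (mapS σ.symm s) := (mapS_mapS_symm σ s).symm
    refine ⟨mk_lt_iff.2 fun a ha => ?_, by rw [e2, card_mapS]; exact h1.2⟩
    have h2 := h1.1 (mem_mapS.2 ha : σ.symm a ∈ mapS σ.symm s)
    rw [mem_erase, mem_erase] at h2
    have h3 : a ≠ 11 := by
      rintro rfl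
      exact h2.1 (by rw [Equiv.symm_apply_eq, h11])
    have h4 : a ≠ 12 := by
      rintro rfl
      exact h2.2.1 (by rw [Equiv.symm_apply_eq, h12])
    have h5 : a.val ≠ 11 := fun h => h3 (Fin.ext h)
    have h6 : a.val ≠ 12 := fun h => h4 (Fin.ext h)
    omega
  have key : ∀ T, enc 11 3 (mapF σ E) = T → mapF σ E = fam 11 3 T := by
    rintro T rfl
    exact (fam_enc (by norm_num) hsub).symm
  refine ⟨σ, h12, h11, ?_⟩
  rcases h with h | h
  · exact Or.inl (key _ h)
  · exact Or.inr (key _ h)

end Pool.Agent.Helper67.TY
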