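import Pool.Agent.Helper67.TY.Root
import Pool.Agent.Helper16.TY.Cls

/-!
MP_8ee768_co, project TH-Y': the class theorem from lists of solutions.

`InRun T m forb cap D` collects the hypotheses of a run. If every member of a run has its code in a
set `S` of numbers (list of the solutions of the search), and every number of `S` is the code of a
relabelled representative (`InCls`, helper16's class check), the run statement `RunR` holds.
-/

set_option autoImplicit false

namespace Pool.Agent.Helper67.TY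

open Finset
open Pool.Agent.Helper89.CV (OddCover ofMask)
open Pool.Agent.Helper97.CV
open Pool.Agent.Helper79.CV
open Pool.Agent.Helper82.TY (below)

/-- the members of a run -/
def InRun (T m : ℕ) (forb : List ℕ) (cap : ℕ) (D : Finset (Finset (Fin 13))) : Prop :=
  OddFam 3 (below 12) D ∧ link D 11 = fam 11 3 T ∧ 2 * D.card ≤ 114 + cap ∧ ZD D m ∧
    ∀ q ∈ forb, ¬ ZD D q

/-- `e` is the code of a family isomorphic (fixing `12`) to one with its code in the list -/
def InCls (reps : List ℕ) (e : ℕ) : Prop :=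
  ∃ σ : Equiv.Perm (Fin 13), σ 12 = 12 ∧ ∃ r ∈ reps, enc 12 4 (mapF σ (fam 12 4 e)) = r

theorem runR_iff {T m : ℕ} {forb : List ℕ} {cap : ℕ} {P : Finset (Finset (Fin 13)) → Prop} :
    RunR T m forb cap P ↔ ∀ D, InRun T m forb cap D → P D :=
  ⟨fun h D hD => h D hD.1 hD.2.1 hD.2.2.1 hD.2.2.2.1 hD.2.2.2.2,
    fun h D h1 h2 h3 h4 h5 => h D ⟨h1, h2, h3, h4, h5⟩⟩

theorem sub_twelve {D : Finset (Finset (Fin 13))} (hD : OddFam 3 (below 12) D) :
    ∀ s ∈ D, Sub 12 4 s := by
  intro s hs
  have h := hD.1 s hs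
  refine ⟨mk_lt_iff.2 fun a ha => ?_, h.2⟩
  have := h.1 ha
  rw [mem_below] at this
  exact this

theorem sub_map {D : Finset (Finset (Fin 13))} (hD : ∀ s ∈ D, Sub 12 4 s)
    {σ : Equiv.Perm (Fin 13)} (h12 : σ 12 = 12) : ∀ s ∈ mapF σ D, Sub 12 4 s := by
  intro s hs
  rw [mem_mapF'] at hs
  have h := hD _ hs
  have e : s = mapS σ (mapS σ.symm s) := (mapS_mapS_symm σ s).symm
  refine ⟨mk_lt_iff.2 fun a ha => ?_, ?_⟩
  · have h1 : σ.symm a ∈ mapS σ.symm s := mem_mapS.2 ha
    have h2 := mk_lt_iff.1 h.1 _ h1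
    by_contra h3
    have h4 : a = 12 := by
      apply Fin.ext
      show a.val = 12
      omega
    have h5 : σ.symm a = 12 := by rw [h4, Equiv.symm_apply_eq, h12]
    rw [h5] at h2
    exact absurd h2 (by decide)
  · rw [e, card_mapS]
    exact h.2

/-- an odd family with its code in a class is isomorphic to the representative -/
theorem iso_of_inCls {D : Finset (Finset (Fin 13))} (hD : OddFam 3 (below 12) D) {reps : List ℕ}
    (h : InCls reps (enc 12 4 D)) :
    ∃ σ : Equiv.Perm (Fin 13), σ 12 = 12 ∧ ∃ r ∈ reps, mapF σ D = fam 12 4 r := by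
  obtain ⟨σ, hσ, r, hr, h1⟩ := h
  rw [fam_enc (by norm_num) (sub_twelve hD)] at h1
  exact ⟨σ, hσ, r, hr, by rw [← h1, fam_enc (by norm_num) (sub_map (sub_twelve hD) hσ)]⟩

/-- **a run from its list of solutions** -/
theorem runR_of_codes {T m : ℕ} {forb : List ℕ} {cap : ℕ} {reps : List ℕ} {S : ℕ → Prop}
    (hS : ∀ D, InRun T m forb cap D → S (enc 12 4 D)) (hC : ∀ e, S e → InCls reps e) :
    RunR T m forb cap (fun D => ∃ σ : Equiv.Perm (Fin 13), σ 12 = 12 ∧
      ∃ r ∈ reps, mapF σ D = fam 12 4 r) := by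
  rw [runR_iff]
  intro D hD
  exact iso_of_inCls hD.1 (hC _ (hS D hD))

/-- helper16's check -/
theorem inCls_of_chk {N : ℕ} {rp : ℕ → ℕ} (hrp : ∀ j, rp j < 2 ^ 495) {reps : List ℕ}
    {es cs js : List ℕ} (hj : ∀ j ∈ js, rp j ∈ reps)
    (h : Pool.Agent.Helper16.TY.chk N rp es cs js = true) : ∀ e ∈ es, InCls reps e := by
  intro e he
  obtain ⟨σ, hσ, j, hjs, h1⟩ := Pool.Agent.Helper16.TY.chk_sound hrp h e he
  exact ⟨σ, hσ, rp j, hj j hjs, h1⟩

/-- **the class theorem for light links from the lists of solutions of the ten runs** -/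
theorem rootOK_of_codes (hN : NearOK) {reps : List ℕ} {S : ℕ → Prop}
    (hA : ∀ r, ∀ h : r < runsA6.length, ∀ D, InRun repA (runsA6[r]).1 (prevs runsA6 r) 6 D →
      S (enc 12 4 D))
    (hB : ∀ r, ∀ h : r < runsB6.length, ∀ D, InRun repB (runsB6[r]).1 (prevs runsB6 r) 6 D →
      S (enc 12 4 D))
    (hC : ∀ e, S e → InCls reps e) : RootOK 6 (fun _ => True) reps :=
  rootOK_of_runs hN (fun r h => runR_of_codes (hA r h) hC) (fun r h => runR_of_codes (hB r h) hC)

/-- the code of a member of a run: `e + 2 ^ 330 * T` with `e` the code of the blocks inside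
`{0, .., 10}` -/
theorem enc_of_inRun {T m : ℕ} (hT : T < 2 ^ (11).choose 3) {forb : List ℕ} {cap : ℕ}
    {D : Finset (Finset (Fin 13))} (hD : InRun T m forb cap D) :
    enc 12 4 D = enc 11 4 D + 2 ^ (11).choose 4 * T := by
  have h := enc_split 11 3 D
  have h2 : enc (11 : Fin 13).val 3 (link D 11) = T := by
    rw [hD.2.1]
    exact enc_fam (by norm_num) hT
  rw [h2] at h
  exact h

/-- a run has at most `K` members (codes of the parts inside `{0, .., 10}`) -/
def CountRun (T m : ℕ) (forb : List ℕ) (cap K : ℕ) : Prop :=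
  ∀ F : Finset ℕ, (∀ e ∈ F, e < 2 ^ (11).choose 4 ∧
    InRun T m forb cap (fam 12 4 (e + 2 ^ (11).choose 4 * T))) → F.card ≤ K

/-- **a run from a count and a list**: `K` different members of the run with the property `P` -/
theorem run_of_count {T m : ℕ} (hT : T < 2 ^ (11).choose 3) {forb : List ℕ} {cap K : ℕ}
    (hK : CountRun T m forb cap K) {P : Finset (Finset (Fin 13)) → Prop} {F : Finset ℕ}
    (hF : K ≤ F.card)
    (hF2 : ∀ e ∈ F, e < 2 ^ (11).choose 4 ∧ InRun T m forb cap (fam 12 4 (e + 2 ^ (11).choose 4 * T)) ∧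
      P (fam 12 4 (e + 2 ^ (11).choose 4 * T))) {D : Finset (Finset (Fin 13))}
    (hD : InRun T m forb cap D) : P D := by
  have h0 := enc_lt 11 4 D
  have h1 := enc_of_inRun hT hD
  have h2 : fam 12 4 (enc 11 4 D + 2 ^ (11).choose 4 * T) = D := by
    rw [← h1, fam_enc (by norm_num) (sub_twelve hD.1)]
  generalize enc 11 4 D = e0 at h0 h1 h2
  by_cases h : e0 ∈ F
  · have h3 := (hF2 _ h).2.2
    rw [h2] at h3
    exact h3
  · exfalso
    have h3 := hK (insert e0 F) (by
      intro e he
      rw [mem_insert] at he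
      rcases he with rfl | he
      · exact ⟨h0, by rw [h2]; exact hD⟩
      · exact ⟨(hF2 e he).1, (hF2 e he).2.1⟩)
    rw [card_insert_of_notMem h] at h3
    omega

end Pool.Agent.Helper67.TY
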