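import Pool.Agent.Helper16.TY.RunFin
import Pool.Agent.Gen.TY.GF.All
import Pool.Agent.Gen.TY.GI.All

/-!
MP_8ee768_co, project TH-Y', stage S: **the table of the glued types is complete**, from the class
theorem.
-/

set_option autoImplicit false
set_option maxRecDepth 100000

namespace Pool.Agent.Helper67.TY

open Finset
open Pool.Agent.Helper89.CV (OddCover ofMask)
open Pool.Agent.Helper97.CV
open Pool.Agent.Helper79.CV
open Pool.Agent.Helper67.GT (NT gG gN lane lanes)

theorem isoAt (t : ℕ) (ht : t < NT) : IsoAt (gG t <<< 210) (gN t) (lane t) :=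
  Pool.Agent.Gen.TY.GI.all t (Nat.zero_le _) ht

theorem gIsoOK : GIsoOK NT gG lanes :=
  gIsoOK_of_checks (fun t _ => gG_lt t) (keyInc_of_seg Pool.Agent.Gen.TY.GI.keys) isoAt

theorem gCardOK : GCardOK NT gG := gCardOK_of_checks (Nn := gN) (ln := lane) isoAt

theorem gFlagOK : GFlagOK p60 Pool.Agent.Helper16.TY.reps NT gG lanes :=
  gFlagOK_of_checks (nc := Pool.Agent.Helper16.TY.Tab.nc) (tv := Pool.Agent.Helper16.TY.Tab.tv)
    (fun j _ => Pool.Agent.Helper16.TY.Tab.tv_good j)
    (fun j hj => Pool.Agent.Gen.TY.GF.all j (Nat.zero_le _) hj)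

/-- **the table of the glued types is complete** -/
theorem gluedOK (hR : RootOK 6 (fun _ => True) Pool.Agent.Helper16.TY.reps) :
    GluedOK NT gG lanes :=
  gluedOK_of_P (P := p60) rfl (gluedOK_of_flags (fun n hn => by
    have h : n = 60 := Nat.eq_of_beq_eq_true hn
    omega) hR gFlagOK gIsoOK gCardOK)

end Pool.Agent.Helper67.TY
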