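import Pool.Agent.Helper67.TY.Sols

/-!
MP_8ee768_co, project TH-Y', stage S: the table of the glued types.

`D` is a link (odd family on `{0, .., 11}`) with 60 blocks whose links at `11` and `10` are given
(`G t` = code of the blocks meeting `{10, 11}`). Its part inside `{0, .., 9}` is in the table of the
type `t`. Derived from the class theorem (`RootOK`), the certificates of all pairs of zero points of
all classes (`GFlagOK`) and the completeness of the isomorphisms between the types (`GIsoOK`).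
-/

set_option autoImplicit false

namespace Pool.Agent.Helper67.TY

open Finset
open Pool.Agent.Helper89.CV (OddCover ofMask)
open Pool.Agent.Helper97.CV
open Pool.Agent.Helper79.CV
open Pool.Agent.Helper82.TY (below)

/-- fixes `12` and the set `{10, 11}` -/
def Fix2 (ρ : Equiv.Perm (Fin 13)) : Prop :=
  ρ 12 = 12 ∧ ((ρ 11 = 11 ∧ ρ 10 = 10) ∨ (ρ 11 = 10 ∧ ρ 10 = 11))

/-- the table of the glued types is complete -/
def GluedOK (NT : ℕ) (G : ℕ → ℕ) (lanes : ℕ → Set ℕ) : Prop :=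
  ∀ t < NT, ∀ D : Finset (Finset (Fin 13)), OddFam 3 (below 12) D → D.card = 60 →
    enc 12 4 D >>> 210 = G t → enc 12 4 D % 2 ^ 210 ∈ lanes t

/-- the table of the glued types is complete for the numbers of blocks satisfying `P` -/
def GluedOKP (P : ℕ → Bool) (NT : ℕ) (G : ℕ → ℕ) (lanes : ℕ → Set ℕ) : Prop :=
  ∀ t < NT, ∀ D : Finset (Finset (Fin 13)), OddFam 3 (below 12) D → P D.card = true →
    enc 12 4 D >>> 210 = G t → enc 12 4 D % 2 ^ 210 ∈ lanes t

theorem gluedOK_of_P {P : ℕ → Bool} (hP : P 60 = true) {NT : ℕ} {G : ℕ → ℕ} {lanes : ℕ → Set ℕ}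
    (h : GluedOKP P NT G lanes) : GluedOK NT G lanes :=
  fun t ht D hD hc hG => h t ht D hD (by rw [hc]; exact hP) hG

/-- all pairs of zero points of the classes (numbers of blocks satisfying `P`) have a
certificate -/
def GFlagOK (P : ℕ → Bool) (reps : List ℕ) (NT : ℕ) (G : ℕ → ℕ) (lanes : ℕ → Set ℕ) : Prop :=
  ∀ r ∈ reps, P (fam 12 4 r).card = true → ∀ u v : Fin 13, u ≠ v → u ≠ 12 → v ≠ 12 →
    (link (fam 12 4 r) u).card = 19 → (link (fam 12 4 r) v).card = 19 →
    ∃ t < NT, ∃ ψ : Equiv.Perm (Fin 13), ψ 12 = 12 ∧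
      ((ψ u = 11 ∧ ψ v = 10) ∨ (ψ u = 10 ∧ ψ v = 11)) ∧
      enc 12 4 (mapF ψ (fam 12 4 r)) >>> 210 = G t ∧
      enc 12 4 (mapF ψ (fam 12 4 r)) % 2 ^ 210 ∈ lanes t

/-- the frame of a type: the blocks meeting `{10, 11}` -/
def frm (G : ℕ) : Finset (Finset (Fin 13)) := fam 12 4 (G <<< 210)

/-- isomorphic types are equal and the tables are closed under the isomorphisms -/
def GIsoOK (NT : ℕ) (G : ℕ → ℕ) (lanes : ℕ → Set ℕ) : Prop :=
  ∀ t < NT, ∀ t' < NT, ∀ ρ : Equiv.Perm (Fin 13), Fix2 ρ →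
    mapF ρ (frm (G t)) = frm (G t') →
    t = t' ∧ ∀ R ∈ lanes t', enc 10 4 (mapF ρ.symm (fam 10 4 R)) ∈ lanes t

/-- the blocks meeting `{10, 11}` -/
def top2 (D : Finset (Finset (Fin 13))) : Finset (Finset (Fin 13)) :=
  D.filter fun s => (10 : Fin 13) ∈ s ∨ (11 : Fin 13) ∈ s

theorem mem_rank : ∀ i < 495, ((L 12 4).getD i 0 < 1024 ↔ i < 210) := by decide +kernel

theorem mem_hi {m : ℕ} (hm : m < 4096) :
    ((10 : Fin 13) ∈ ofMask m ∨ (11 : Fin 13) ∈ ofMask m) ↔ ¬ m < 1024 := by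
  rw [mem_ofMask, mem_ofMask]
  have h1 : (10 : Fin 13).val = 10 := rfl
  have h2 : (11 : Fin 13).val = 11 := rfl
  rw [h1, h2, Nat.testBit_eq_decide_div_mod_eq, Nat.testBit_eq_decide_div_mod_eq,
    decide_eq_true_eq, decide_eq_true_eq]
  norm_num
  omega

theorem choose_12_4 : (12 : ℕ).choose 4 = 495 := by decide +kernel

theorem choose_11_4 : (11 : ℕ).choose 4 = 330 := by decide +kernel

theorem choose_10_4 : (10 : ℕ).choose 4 = 210 := by decide +kernel

/-- the code of the blocks meeting `{10, 11}` -/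
theorem enc_top2 (D : Finset (Finset (Fin 13))) :
    enc 12 4 (top2 D) = (enc 12 4 D >>> 210) <<< 210 := by
  refine Nat.eq_of_testBit_eq fun i => ?_
  rw [Nat.testBit_shiftLeft, Nat.testBit_shiftRight]
  by_cases hi : i < (L 12 4).length
  · have hi' : i < 495 := by
      have h := hi
      rw [length_L, choose_12_4] at h
      exact h
    have hget : (L 12 4).getD i 0 = (L 12 4)[i]'hi := by
      rw [List.getD_eq_getElem?_getD, List.getElem?_eq_getElem hi]
      rfl
    have h1 := mem_rank i hi'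
    rw [hget] at h1
    have h2 : (L 12 4)[i]'hi < 4096 := by
      have h := lt_of_mem_L (List.getElem_mem hi)
      norm_num at h
      exact h
    rw [testBit_enc _ hi]
    unfold top2
    by_cases h3 : 210 ≤ i
    · have h4 : 210 + (i - 210) = i := by omega
      rw [h4, testBit_enc _ hi, decide_eq_true h3, Bool.true_and, decide_eq_decide, mem_filter,
        mem_hi h2, h1]
      exact ⟨fun h => h.1, fun h => ⟨h, by omega⟩⟩
    · rw [decide_eq_false h3, Bool.false_and, decide_eq_false_iff_not, mem_filter, mem_hi h2, h1]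
      rintro ⟨-, h⟩
      omega
  · rw [testBit_enc_ge _ (by omega)]
    rw [length_L] at hi
    have h3 := choose_12_4
    have h4 : 210 ≤ i := by omega
    have h5 : 210 + (i - 210) = i := by omega
    rw [h5, testBit_enc_ge _ (by rw [length_L]; exact not_lt.1 hi), Bool.and_false]

theorem sub_top2 {D : Finset (Finset (Fin 13))} (hD : ∀ s ∈ D, Sub 12 4 s) :
    ∀ s ∈ top2 D, Sub 12 4 s := fun s hs => hD s (mem_filter.1 hs).1

/-- the frame of a family -/
theorem frm_eq {D : Finset (Finset (Fin 13))} (hD : ∀ s ∈ D, Sub 12 4 s) {G : ℕ}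
    (h : enc 12 4 D >>> 210 = G) : frm G = top2 D := by
  unfold frm
  rw [← h, ← enc_top2, fam_enc (by norm_num) (sub_top2 hD)]

theorem fix2_mem {ρ : Equiv.Perm (Fin 13)} (h : Fix2 ρ) (s : Finset (Fin 13)) :
    ((10 : Fin 13) ∈ mapS ρ s ∨ (11 : Fin 13) ∈ mapS ρ s) ↔ ((10 : Fin 13) ∈ s ∨ (11 : Fin 13) ∈ s) := by
  rw [mem_mapS', mem_mapS']
  rcases h.2 with ⟨h1, h2⟩ | ⟨h1, h2⟩
  · have e1 : ρ.symm 11 = 11 := by rw [Equiv.symm_apply_eq, h1]
    have e2 : ρ.symm 10 = 10 := by rw [Equiv.symm_apply_eq, h2]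
    rw [e1, e2]
  · have e1 : ρ.symm 11 = 10 := by rw [Equiv.symm_apply_eq, h2]
    have e2 : ρ.symm 10 = 11 := by rw [Equiv.symm_apply_eq, h1]
    rw [e1, e2]
    exact or_comm

theorem mapF_top2 {ρ : Equiv.Perm (Fin 13)} (h : Fix2 ρ) (D : Finset (Finset (Fin 13))) :
    mapF ρ (top2 D) = top2 (mapF ρ D) := by
  unfold top2
  exact mapF_filter ρ D _ _ (fix2_mem h)

/-- the blocks inside `{0, .., 9}` -/
theorem enc_low (D : Finset (Finset (Fin 13))) : enc 12 4 D % 2 ^ 210 = enc 10 4 D := by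
  have h1 := enc_mod 11 3 D
  have h2 := enc_mod 10 3 D
  rw [← h2, ← h1]
  have h3 : (11 : ℕ).choose (3 + 1) = 330 := choose_11_4
  have h4 : (10 : ℕ).choose (3 + 1) = 210 := choose_10_4
  rw [h3, h4]
  exact (Nat.mod_mod_of_dvd _ (pow_dvd_pow 2 (by norm_num))).symm

/-- the blocks avoiding `{10, 11}` -/
def low2 (D : Finset (Finset (Fin 13))) : Finset (Finset (Fin 13)) :=
  D.filter fun s => ¬ ((10 : Fin 13) ∈ s ∨ (11 : Fin 13) ∈ s)

theorem fam_low {D : Finset (Finset (Fin 13))} (hD : ∀ s ∈ D, Sub 12 4 s) :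
    fam 10 4 (enc 10 4 D) = low2 D := by
  have h1 : enc 10 4 D = enc 10 4 (low2 D) := by
    refine Nat.eq_of_testBit_eq fun i => ?_
    by_cases hi : i < (L 10 4).length
    · have h2 : (L 10 4)[i] < 1024 := by
        have h := lt_of_mem_L (List.getElem_mem hi)
        norm_num at h
        exact h
      rw [testBit_enc _ hi, testBit_enc _ hi]
      unfold low2
      rw [decide_eq_decide, mem_filter, mem_hi (by omega)]
      exact ⟨fun h => ⟨h, not_not.2 h2⟩, fun h => h.1⟩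
    · rw [testBit_enc_ge _ (by omega), testBit_enc_ge _ (by omega)]
  rw [h1, fam_enc (by norm_num)]
  intro s hs
  unfold low2 at hs
  rw [mem_filter] at hs
  have h2 := hD s hs.1
  refine ⟨?_, h2.2⟩
  have h3 := h2.1
  by_contra h4
  have h5 := (mem_hi (m := mk s) h3).2 h4
  rw [ofMask_mk] at h5
  exact hs.2 h5

theorem mapF_low2 {ρ : Equiv.Perm (Fin 13)} (h : Fix2 ρ) (D : Finset (Finset (Fin 13))) :
    mapF ρ (low2 D) = low2 (mapF ρ D) := by
  unfold low2
  exact mapF_filter ρ D _ _ fun s => not_congr (fix2_mem h s)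

theorem fix2_symm {ρ : Equiv.Perm (Fin 13)} (h : Fix2 ρ) : Fix2 ρ.symm := by
  obtain ⟨h0, h1⟩ := h
  refine ⟨by rw [Equiv.symm_apply_eq, h0], ?_⟩
  rcases h1 with ⟨h1, h2⟩ | ⟨h1, h2⟩
  · exact Or.inl ⟨by rw [Equiv.symm_apply_eq, h1], by rw [Equiv.symm_apply_eq, h2]⟩
  · exact Or.inr ⟨by rw [Equiv.symm_apply_eq, h2], by rw [Equiv.symm_apply_eq, h1]⟩

theorem link_top2 {D : Finset (Finset (Fin 13))} {a : Fin 13} (ha : a = 10 ∨ a = 11) :
    link (top2 D) a = link D a := by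
  ext s
  rw [mem_link, mem_link]
  unfold top2
  rw [mem_filter]
  constructor
  · rintro ⟨h1, h2, -⟩
    exact ⟨h1, h2⟩
  · rintro ⟨h1, h2⟩
    refine ⟨h1, h2, ?_⟩
    rcases ha with rfl | rfl
    · exact Or.inl (mem_insert_self _ _)
    · exact Or.inr (mem_insert_self _ _)

/-- both links of the frames have 19 blocks -/
def GCardOK (NT : ℕ) (G : ℕ → ℕ) : Prop :=
  ∀ t < NT, (link (frm (G t)) 11).card = 19 ∧ (link (frm (G t)) 10).card = 19

/-- **the tables of the glued types are complete** -/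
theorem gluedOK_of_flags {P : ℕ → Bool} (hP : ∀ n, P n = true → n ≤ 60)
    {NT : ℕ} {G : ℕ → ℕ} {lanes : ℕ → Set ℕ} {reps : List ℕ}
    (hR : RootOK 6 (fun _ => True) reps) (hF : GFlagOK P reps NT G lanes)
    (hI : GIsoOK NT G lanes) (hC : GCardOK NT G) : GluedOKP P NT G lanes := by
  intro t ht D hD hcard hG
  have hsub := sub_twelve hD
  obtain ⟨σ, hσ, r, hr, hσr⟩ := hR D hD (by have := hP _ hcard; omega) trivial
  have hfr := frm_eq hsub hG
  have hsub' := sub_map hsub hσ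
  -- the two points
  have hu : σ 11 ≠ 12 := fun h => absurd (σ.injective (h.trans hσ.symm)) (by decide)
  have hv : σ 10 ≠ 12 := fun h => absurd (σ.injective (h.trans hσ.symm)) (by decide)
  have huv : σ 11 ≠ σ 10 := fun h => absurd (σ.injective h) (by decide)
  have hlu : (link (fam 12 4 r) (σ 11)).card = 19 := by
    rw [← hσr, link_mapF, card_mapF, ← link_top2 (Or.inr rfl), ← hfr]
    exact (hC t ht).1
  have hlv : (link (fam 12 4 r) (σ 10)).card = 19 := by
    rw [← hσr, link_mapF, card_mapF, ← link_top2 (Or.inl rfl), ← hfr]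
    exact (hC t ht).2
  have hc60 : P (fam 12 4 r).card = true := by rw [← hσr, card_mapF, hcard]
  obtain ⟨t', ht', ψ, hψ, hψuv, hG', hL'⟩ := hF r hr hc60 _ _ huv hu hv hlu hlv
  rw [← hσr, ← mapF_mul] at hG' hL'
  have hρ : Fix2 (ψ * σ) := by
    refine ⟨by rw [Equiv.Perm.mul_apply, hσ, hψ], ?_⟩
    rw [Equiv.Perm.mul_apply, Equiv.Perm.mul_apply]
    exact hψuv
  generalize ψ * σ = ρ at hρ hG' hL'
  have hsubρ := sub_map hsub hρ.1
  have hfr' := frm_eq hsubρ hG'
  obtain ⟨htt, hcl⟩ := hI t ht t' ht' ρ hρ (by rw [hfr, hfr', mapF_top2 hρ])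
  subst htt
  have h1 := hcl _ hL'
  rw [enc_low, fam_low hsubρ, mapF_low2 (fix2_symm hρ), mapF_symm_mapF] at h1
  rw [enc_low, ← enc_fam (n := 10) (k := 4) (by norm_num) (enc_lt 10 4 D), fam_low hsub]
  exact h1

end Pool.Agent.Helper67.TY
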