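import Pool.Agent.Helper79.CV.Link

/-!
MP_8ee768_co, project TH-Y': every odd `(12,4,3)`-family on `{0, .., 11}` is the link at `12` of an
odd `(13,5,4)`-cover (cone construction with apex `0`). So statements about the links of odd covers
and statements about odd families on `12` points are the same.
-/

set_option autoImplicit false

namespace Pool.Agent.Helper67.TY

open Finset
open Pool.Agent.Helper89.CV (OddCover)
open Pool.Agent.Helper97.CV
open Pool.Agent.Helper79.CV

/-- the cone cover: blocks `Q ∪ {12}`, `Q ∈ D`, and `Q ∪ {0}`, `Q ∉ D` a quad of `{1, .., 11}` -/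
def coneB (D : Finset (Finset (Fin 13))) : Finset (Finset (Fin 13)) :=
  (powersetCard 5 univ).filter fun b =>
    (12 ∈ b ∧ b.erase 12 ∈ D) ∨ (12 ∉ b ∧ 0 ∈ b ∧ b.erase 0 ∉ D)

theorem mem_coneB {D : Finset (Finset (Fin 13))} {b : Finset (Fin 13)} :
    b ∈ coneB D ↔ b.card = 5 ∧
      ((12 ∈ b ∧ b.erase 12 ∈ D) ∨ (12 ∉ b ∧ 0 ∈ b ∧ b.erase 0 ∉ D)) := by
  unfold coneB
  rw [mem_filter, mem_powersetCard]
  simp only [subset_univ, true_and]

theorem link_coneB {D : Finset (Finset (Fin 13))} (h : OddFam 3 (univ.erase 12) D) :
    link (coneB D) 12 = D := by
  ext q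
  rw [mem_link, mem_coneB]
  constructor
  · rintro ⟨h1, -, ⟨-, h2⟩ | ⟨h2, -⟩⟩
    · rwa [erase_insert h1] at h2
    · exact absurd (mem_insert_self _ _) h2
  · intro hq
    obtain ⟨h1, h2⟩ := h.1 q hq
    have h3 : (12 : Fin 13) ∉ q := fun h3 => notMem_erase 12 univ (h1 h3)
    refine ⟨h3, ?_, Or.inl ⟨mem_insert_self _ _, by rwa [erase_insert h3]⟩⟩
    rw [card_insert_of_notMem h3, h2]

/-- the number of blocks of a family of `5`-sets through a quad -/
theorem cnt_eq_card {B : Finset (Finset (Fin 13))} (hB : ∀ b ∈ B, b.card = 5)
    {s : Finset (Fin 13)} (hs : s.card = 4) :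
    cnt B s = ((sᶜ).filter fun v => insert v s ∈ B).card := by
  unfold cnt
  symm
  refine card_bij (fun v _ => insert v s) ?_ ?_ ?_
  · intro v hv
    rw [mem_filter] at hv ⊢
    exact ⟨hv.2, subset_insert v s⟩
  · intro v hv w hw h
    rw [mem_filter, mem_compl] at hv hw
    have h1 : v ∈ insert w s := by
      have h2 : v ∈ insert v s := mem_insert_self v s
      rwa [h] at h2
    rcases mem_insert.1 h1 with h2 | h2
    · exact h2
    · exact absurd h2 hv.1
  · intro b hb
    rw [mem_filter] at hb
    obtain ⟨v, hv⟩ := card_eq_one.1 (show (b \ s).card = 1 by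
      rw [card_sdiff_of_subset hb.2, hB b hb.1, hs])
    have h3 : v ∈ b \ s := by rw [hv]; exact mem_singleton_self v
    rw [mem_sdiff] at h3
    have h4 : insert v s = b := by
      have h5 : b = s ∪ (b \ s) := (union_sdiff_of_subset hb.2).symm
      rw [hv] at h5
      rw [h5, insert_eq, union_comm]
    exact ⟨v, mem_filter.2 ⟨mem_compl.2 h3.2, by rw [h4]; exact hb.1⟩, h4⟩

/-- the same for families of quads and triples -/
theorem cnt_eq_card3 {D : Finset (Finset (Fin 13))} (hD : ∀ b ∈ D, b.card = 4)
    {s : Finset (Fin 13)} (hs : s.card = 3) :
    cnt D s = ((sᶜ).filter fun v => insert v s ∈ D).card := by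
  unfold cnt
  symm
  refine card_bij (fun v _ => insert v s) ?_ ?_ ?_
  · intro v hv
    rw [mem_filter] at hv ⊢
    exact ⟨hv.2, subset_insert v s⟩
  · intro v hv w hw h
    rw [mem_filter, mem_compl] at hv hw
    have h1 : v ∈ insert w s := by
      have h2 : v ∈ insert v s := mem_insert_self v s
      rwa [h] at h2
    rcases mem_insert.1 h1 with h2 | h2
    · exact h2
    · exact absurd h2 hv.1
  · intro b hb
    rw [mem_filter] at hb
    obtain ⟨v, hv⟩ := card_eq_one.1 (show (b \ s).card = 1 by
      rw [card_sdiff_of_subset hb.2, hD b hb.1, hs])
    have h3 : v ∈ b \ s := by rw [hv]; exact mem_singleton_self v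
    rw [mem_sdiff] at h3
    have h4 : insert v s = b := by
      have h5 : b = s ∪ (b \ s) := (union_sdiff_of_subset hb.2).symm
      rw [hv] at h5
      rw [h5, insert_eq, union_comm]
    exact ⟨v, mem_filter.2 ⟨mem_compl.2 h3.2, by rw [h4]; exact hb.1⟩, h4⟩

theorem oddCover_coneB {D : Finset (Finset (Fin 13))} (h : OddFam 3 (univ.erase 12) D) :
    OddCover (coneB D) := by
  have hD4 : ∀ b ∈ D, b.card = 4 := fun b hb => (h.1 b hb).2
  have hD12 : ∀ b ∈ D, (12 : Fin 13) ∉ b := fun b hb h3 => notMem_erase 12 univ ((h.1 b hb).1 h3)
  have hB5 : ∀ b ∈ coneB D, b.card = 5 := fun b hb => (mem_coneB.1 hb).1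
  refine ⟨hB5, fun s hs => ?_⟩
  have hgoal : Odd (cnt (coneB D) s) := by
    by_cases h12 : (12 : Fin 13) ∈ s
    · -- quads through 12
      have h1 := cnt_link (coneB D) (x := 12) (s := s.erase 12) (notMem_erase 12 s)
      rw [insert_erase h12, link_coneB h] at h1
      rw [← h1]
      refine h.2 _ ?_ ?_
      · intro a ha
        exact mem_erase.2 ⟨(mem_erase.1 ha).1, mem_univ a⟩
      · rw [card_erase_of_mem h12, hs]
    · by_cases h0 : (0 : Fin 13) ∈ s
      · -- s = {0} ∪ t
        obtain ⟨t, ht⟩ : ∃ t, t = s.erase 0 := ⟨_, rfl⟩
        have ht3 : t.card = 3 := by rw [ht, card_erase_of_mem h0, hs]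
        have hst : insert 0 t = s := by rw [ht, insert_erase h0]
        have h0t : (0 : Fin 13) ∉ t := by rw [ht]; exact notMem_erase 0 s
        have h12t : (12 : Fin 13) ∉ t := by
          rw [ht]
          exact fun h3 => h12 (mem_of_mem_erase h3)
        have hodd := h.2 t (fun a ha => mem_erase.2 ⟨fun h3 => h12t (h3 ▸ ha), mem_univ a⟩) ht3
        rw [cnt_eq_card3 hD4 ht3] at hodd
        rw [cnt_eq_card hB5 hs]
        -- split off the points 0 and 12
        have e1 : (tᶜ).filter (fun v => insert v t ∈ D) =
            ((sᶜ.erase 12).filter fun v => insert v t ∈ D) ∪ (if s ∈ D then {0} else ∅) := by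
          ext v
          rw [mem_filter, mem_compl, mem_union, mem_filter, mem_erase, mem_compl, ← hst,
            mem_insert]
          by_cases hv0 : v = 0
          · subst hv0
            by_cases hsD : insert 0 t ∈ D
            · simp [hsD, h0t]
            · simp [hsD, h0t]
          · have h5 : v ∉ (if insert 0 t ∈ D then ({0} : Finset (Fin 13)) else ∅) := by
              split
              · rw [mem_singleton]
                exact hv0
              · exact notMem_empty v
            constructor
            · rintro ⟨h6, h7⟩
              refine Or.inl ⟨⟨?_, ?_⟩, h7⟩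
              · rintro rfl
                exact hD12 _ h7 (mem_insert_self _ _)
              · rintro (h8 | h8)
                · exact hv0 h8
                · exact h6 h8
            · rintro (⟨⟨-, h7⟩, h8⟩ | h6)
              · exact ⟨fun h9 => h7 (Or.inr h9), h8⟩
              · exact absurd h6 h5
        have e2 : (sᶜ).filter (fun v => insert v s ∈ coneB D) =
            ((sᶜ.erase 12).filter fun v => ¬ insert v t ∈ D) ∪ (if s ∈ D then {12} else ∅) := by
          ext v
          rw [mem_filter, mem_compl, mem_union, mem_filter, mem_erase, mem_compl, mem_coneB]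
          by_cases hv : v = 12
          · subst hv
            have h6 : (insert 12 s).card = 5 := by rw [card_insert_of_notMem h12, hs]
            by_cases hsD : s ∈ D
            · simp [hsD, h12, h6]
            · simp [hsD, h12]
          · have h5 : v ∉ (if s ∈ D then ({12} : Finset (Fin 13)) else ∅) := by
              split
              · rw [mem_singleton]
                exact hv
              · exact notMem_empty v
            constructor
            · rintro ⟨h6, h7, h8⟩
              refine Or.inl ⟨⟨hv, h6⟩, ?_⟩
              rcases h8 with ⟨h8, -⟩ | ⟨-, -, h8⟩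
              · rcases mem_insert.1 h8 with h9 | h9
                · exact absurd h9.symm hv
                · exact absurd h9 h12
              · have h9 : (insert v s).erase 0 = insert v t := by
                  have hv0 : v ≠ 0 := fun h10 => h6 (h10 ▸ h0)
                  rw [ht, erase_insert_of_ne hv0]
                rwa [h9] at h8
            · rintro (⟨⟨-, h6⟩, h7⟩ | h6)
              · refine ⟨h6, by rw [card_insert_of_notMem h6, hs], Or.inr ⟨?_, ?_, ?_⟩⟩
                · rw [mem_insert]
                  rintro (h9 | h9)
                  · exact hv h9.symm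
                  · exact h12 h9
                · exact mem_insert_of_mem h0
                · have h9 : (insert v s).erase 0 = insert v t := by
                    have hv0 : v ≠ 0 := fun h10 => h6 (h10 ▸ h0)
                    rw [ht, erase_insert_of_ne hv0]
                  rwa [h9]
              · exact absurd h6 h5
        have hd1 : Disjoint ((sᶜ.erase 12).filter fun v => insert v t ∈ D)
            (if s ∈ D then ({0} : Finset (Fin 13)) else ∅) := by
          split
          · rw [disjoint_singleton_right, mem_filter, mem_erase, mem_compl]
            exact fun h6 => h6.1.2 h0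
          · exact disjoint_empty_right _
        have hd2 : Disjoint ((sᶜ.erase 12).filter fun v => ¬ insert v t ∈ D)
            (if s ∈ D then ({12} : Finset (Fin 13)) else ∅) := by
          split
          · rw [disjoint_singleton_right, mem_filter, mem_erase]
            exact fun h6 => h6.1.1 rfl
          · exact disjoint_empty_right _
        rw [e1, card_union_of_disjoint hd1] at hodd
        rw [e2, card_union_of_disjoint hd2]
        have h8 : (sᶜ.erase 12).card = 8 := by
          rw [card_erase_of_mem (mem_compl.2 h12), card_compl, hs, Fintype.card_fin]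
        have h9 := card_filter_add_card_filter_not (s := sᶜ.erase 12) (p := fun v => insert v t ∈ D)
        rw [h8] at h9
        have hc : (if s ∈ D then ({0} : Finset (Fin 13)) else ∅).card =
            (if s ∈ D then ({12} : Finset (Fin 13)) else ∅).card := by
          split <;> rfl
        rw [hc] at hodd
        rw [Nat.odd_iff] at hodd ⊢
        omega
      · -- s avoids 0 and 12
        rw [cnt_eq_card hB5 hs]
        have e2 : (sᶜ).filter (fun v => insert v s ∈ coneB D) =
            if s ∈ D then {12} else {0} := by
          ext v
          rw [mem_filter, mem_compl, mem_coneB]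
          by_cases hsD : s ∈ D
          · rw [if_pos hsD, mem_singleton]
            constructor
            · rintro ⟨h6, -, ⟨h8, -⟩ | ⟨h8, h9, h10⟩⟩
              · rcases mem_insert.1 h8 with h9 | h9
                · exact h9.symm
                · exact absurd h9 h12
              · rcases mem_insert.1 h9 with h11 | h11
                · rw [← h11, erase_insert h0] at h10
                  exact absurd hsD h10
                · exact absurd h11 h0
            · rintro rfl
              exact ⟨h12, by rw [card_insert_of_notMem h12, hs],
                Or.inl ⟨mem_insert_self _ _, by rwa [erase_insert h12]⟩⟩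
          · rw [if_neg hsD, mem_singleton]
            constructor
            · rintro ⟨h6, -, ⟨h8, h9⟩ | ⟨-, h9, -⟩⟩
              · rcases mem_insert.1 h8 with h10 | h10
                · rw [← h10, erase_insert h12] at h9
                  exact absurd h9 hsD
                · exact absurd h10 h12
              · rcases mem_insert.1 h9 with h11 | h11
                · exact h11.symm
                · exact absurd h11 h0
            · rintro rfl
              refine ⟨h0, by rw [card_insert_of_notMem h0, hs],
                Or.inr ⟨?_, mem_insert_self _ _, by rwa [erase_insert h0]⟩⟩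
              rw [mem_insert]
              rintro (h9 | h9)
              · exact absurd h9 (by decide)
              · exact h12 h9
        rw [e2]
        split <;> exact odd_one
  exact hgoal

/-- **every odd family on `{0, .., 11}` is a link** -/
theorem exists_cover {D : Finset (Finset (Fin 13))} (h : OddFam 3 (univ.erase 12) D) :
    ∃ B, OddCover B ∧ link B 12 = D := ⟨coneB D, oddCover_coneB h, link_coneB h⟩

end Pool.Agent.Helper67.TY
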