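import Pool.Agent.Helper67.TY.Glued
import Pool.Agent.Helper16.TY.Seg

/-!
MP_8ee768_co, project TH-Y': the certificates of the pairs of zero points of the classes.

For a class value `x = code D (zs D)` with `D.card = 60` and every pair `{u, v}` of zero points the
start lane is `code D {{u}, {v}}`; helper16's network moves it to
`code D' {{10}, {11}}` with `enc 12 4 D' = G t * 2 ^ 210 + lane`.
-/

set_option autoImplicit false
set_option maxRecDepth 100000

namespace Pool.Agent.Helper67.TY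

open Finset
open Pool.Agent.Helper89.CV (OddCover ofMask)
open Pool.Agent.Helper97.CV
open Pool.Agent.Helper79.CV
open Pool.Agent.Helper63.SIMD
open Pool.Agent.Helper82.TY (below pop)
open Pool.Agent.Helper16.TY (code Good zs net runN packL fld_packL net_sound getElem_L_one
  ofMask_two_pow singleton_mem_zs testBit_code code_lt code_mod testBit_code_zs)

/-! ## the marker -/

theorem testBit_enc_one (S : Finset (Finset (Fin 13))) {i : ℕ} (hi : i < 12) :
    (enc 12 1 S).testBit i = decide ({(⟨i, by omega⟩ : Fin 13)} ∈ S) := by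
  rw [testBit_enc _ (by rw [length_L]; exact hi), getElem_L_one i hi, ofMask_two_pow (by omega)]

/-- mask of a pair -/
def pm2 (u v : ℕ) : ℕ := 2 ^ u ||| 2 ^ v

theorem testBit_pm2 (u v i : ℕ) : (pm2 u v).testBit i = (decide (u = i) || decide (v = i)) := by
  unfold pm2
  rw [Nat.testBit_or, Nat.testBit_two_pow, Nat.testBit_two_pow]

theorem enc_one_pair {u v : Fin 13} (hu : u.val < 12) (hv : v.val < 12) :
    enc 12 1 {{u}, {v}} = pm2 u.val v.val := by
  refine Nat.eq_of_testBit_eq fun i => ?_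
  rw [testBit_pm2]
  by_cases hi : i < 12
  · rw [testBit_enc_one _ hi, Bool.eq_iff_iff, decide_eq_true_eq, mem_insert, mem_singleton,
      singleton_inj, singleton_inj, Bool.or_eq_true, decide_eq_true_eq, decide_eq_true_eq,
      Fin.ext_iff, Fin.ext_iff]
    exact ⟨fun h => h.imp Eq.symm Eq.symm, fun h => h.imp Eq.symm Eq.symm⟩
  · rw [testBit_enc_ge _ (by rw [length_L]; show 12 ≤ i; omega), decide_eq_false (by omega),
      decide_eq_false (by omega)]
    rfl

theorem mapF_pair' (σ : Equiv.Perm (Fin 13)) (u v : Fin 13) :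
    mapF σ {{u}, {v}} = {{σ u}, {σ v}} := by
  ext s
  rw [mem_mapF', mem_insert, mem_singleton, mem_insert, mem_singleton]
  have h : ∀ a : Fin 13, mapS σ.symm s = {a} ↔ s = {σ a} := by
    intro a
    constructor
    · intro h
      rw [← mapS_mapS_symm σ s, h, mapS_singleton]
    · intro h
      rw [h, mapS_singleton, Equiv.symm_apply_apply]
  rw [h, h]

theorem pm2_comm (u v : ℕ) : pm2 u v = pm2 v u := Nat.or_comm _ _

theorem pm2_add {u v : ℕ} (h : u ≠ v) : pm2 u v = 2 ^ u + 2 ^ v := by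
  have key : ∀ a b : ℕ, a < b → 2 ^ a ||| 2 ^ b = 2 ^ a + 2 ^ b := by
    intro a b hab
    have h1 : 2 ^ b + 2 ^ a = 2 ^ b ||| 2 ^ a := by
      have h2 := Nat.two_pow_add_eq_or_of_lt (i := b) (b := 2 ^ a)
        (Nat.pow_lt_pow_right (by norm_num) hab) 1
      rw [Nat.mul_one] at h2
      exact h2
    rw [Nat.or_comm, ← h1, Nat.add_comm]
  unfold pm2
  rcases Nat.lt_or_gt_of_ne h with h | h
  · exact key u v h
  · rw [Nat.or_comm, key v u h, Nat.add_comm]

/-! ## start lanes -/

/-- evaluation of the argument first -/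
def forceL (n : ℕ) (f : ℕ → List ℕ) : List ℕ := Nat.rec (f 0) (fun k _ => f (Nat.succ k)) n

theorem forceL_eq (n : ℕ) (f : ℕ → List ℕ) : forceL n f = f n := by cases n <;> rfl

/-- evaluation of the argument first -/
def forceN (n : ℕ) (f : ℕ → ℕ) : ℕ := Nat.rec (f 0) (fun k _ => f (Nat.succ k)) n

theorem forceN_eq (n : ℕ) (f : ℕ → ℕ) : forceN n f = f n := by cases n <;> rfl

/-- the start lane of the pair `{u, v}` -/
def lane1 (d u v : ℕ) : ℕ :=
  Nat.add (Nat.shiftLeft (Nat.add (Nat.shiftLeft 1 u) (Nat.shiftLeft 1 v)) 495) d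

theorem lane1_eq (d u v : ℕ) : lane1 d u v = (2 ^ u + 2 ^ v) <<< 495 + d := by
  show (1 <<< u + 1 <<< v) <<< 495 + d = _
  rw [Nat.one_shiftLeft, Nat.one_shiftLeft]

theorem beq_bit (z i : ℕ) : Nat.beq (Nat.land (Nat.shiftRight z i) 1) 1 = z.testBit i := by
  have h1 : Nat.land (Nat.shiftRight z i) 1 = (z >>> i) &&& 1 := rfl
  rw [h1, Nat.and_one_is_mod, Nat.shiftRight_eq_div_pow, Nat.testBit_eq_decide_div_mod_eq,
    Bool.eq_iff_iff, Nat.beq_eq, decide_eq_true_eq]

/-- the start lanes with `u < n`, in front of a list -/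
def inn (z d v : ℕ) (rest : List ℕ) (n : ℕ) : List ℕ :=
  Nat.rec (motive := fun _ => List ℕ) rest
    (fun u ih => Bool.rec (motive := fun _ => List ℕ) ih
      (Nat.add (Nat.shiftLeft (Nat.add (Nat.shiftLeft 1 u) (Nat.shiftLeft 1 v)) 495) d :: ih)
      (Nat.beq (Nat.land (Nat.shiftRight z u) 1) 1)) n

theorem inn_succ (z d v : ℕ) (rest : List ℕ) (n : ℕ) :
    inn z d v rest (n + 1) =
      bif z.testBit n then lane1 d n v :: inn z d v rest n else inn z d v rest n := by
  rw [← beq_bit]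
  show Bool.rec (motive := fun _ => List ℕ) _ _ (Nat.beq (Nat.land (Nat.shiftRight z n) 1) 1) = _
  cases Nat.beq (Nat.land (Nat.shiftRight z n) 1) 1 <;> rfl

theorem inn_rest {z d v a : ℕ} {rest : List ℕ} (h : a ∈ rest) (n : ℕ) : a ∈ inn z d v rest n := by
  induction n with
  | zero => exact h
  | succ n ih =>
    rw [inn_succ]
    cases z.testBit n
    · exact ih
    · exact List.mem_cons_of_mem _ ih

theorem inn_mem {z d v u : ℕ} (rest : List ℕ) (n : ℕ) (hu : u < n) (h : z.testBit u = true) :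
    lane1 d u v ∈ inn z d v rest n := by
  induction n with
  | zero => omega
  | succ n ih =>
    rw [inn_succ]
    by_cases h1 : u = n
    · subst h1
      rw [h, cond_true]
      exact List.mem_cons_self
    · have h2 := ih (by omega)
      cases z.testBit n
      · exact h2
      · exact List.mem_cons_of_mem _ h2

theorem inn_all {z d v : ℕ} {rest : List ℕ} {Q : ℕ → Prop} (h : ∀ a ∈ rest, Q a) (n : ℕ)
    (hn : ∀ u < n, Q (lane1 d u v)) : ∀ a ∈ inn z d v rest n, Q a := by
  induction n with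
  | zero => exact h
  | succ n ih =>
    intro a ha
    rw [inn_succ] at ha
    have ih' := ih fun u hu => hn u (by omega)
    cases h1 : z.testBit n
    · rw [h1] at ha
      exact ih' a ha
    · rw [h1, cond_true] at ha
      rcases List.mem_cons.1 ha with rfl | ha
      · exact hn n (Nat.lt_succ_self n)
      · exact ih' a ha

/-- the start lanes with `u < v < n`, in front of a list -/
def out (z d : ℕ) (rest : List ℕ) (n : ℕ) : List ℕ :=
  Nat.rec (motive := fun _ => List ℕ) rest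
    (fun v ih => Bool.rec (motive := fun _ => List ℕ) ih (inn z d v ih v)
      (Nat.beq (Nat.land (Nat.shiftRight z v) 1) 1)) n

theorem out_succ (z d : ℕ) (rest : List ℕ) (n : ℕ) :
    out z d rest (n + 1) =
      bif z.testBit n then inn z d n (out z d rest n) n else out z d rest n := by
  rw [← beq_bit]
  show Bool.rec (motive := fun _ => List ℕ) _ _ (Nat.beq (Nat.land (Nat.shiftRight z n) 1) 1) = _
  cases Nat.beq (Nat.land (Nat.shiftRight z n) 1) 1 <;> rfl

theorem out_rest {z d a : ℕ} {rest : List ℕ} (h : a ∈ rest) (n : ℕ) : a ∈ out z d rest n := by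
  induction n with
  | zero => exact h
  | succ n ih =>
    rw [out_succ]
    cases z.testBit n
    · exact ih
    · exact inn_rest ih _

theorem out_mem {z d u v : ℕ} (rest : List ℕ) (n : ℕ) (hu : u < v) (hv : v < n)
    (h : z.testBit u = true) (h' : z.testBit v = true) : lane1 d u v ∈ out z d rest n := by
  induction n with
  | zero => omega
  | succ n ih =>
    rw [out_succ]
    by_cases h1 : v = n
    · subst h1
      rw [h', cond_true]
      exact inn_mem _ _ hu h
    · have h2 := ih (by omega)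
      cases z.testBit n
      · exact h2
      · exact inn_rest h2 _

theorem out_all {z d : ℕ} {rest : List ℕ} {Q : ℕ → Prop} (h : ∀ a ∈ rest, Q a) (n : ℕ)
    (hn : ∀ v < n, ∀ u < v, Q (lane1 d u v)) : ∀ a ∈ out z d rest n, Q a := by
  induction n with
  | zero => exact h
  | succ n ih =>
    intro a ha
    rw [out_succ] at ha
    have ih' := ih fun v hv => hn v (by omega)
    cases h1 : z.testBit n
    · rw [h1] at ha
      exact ih' a ha
    · rw [h1, cond_true] at ha
      exact inn_all ih' n (hn n (Nat.lt_succ_self n)) a ha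

/-- the start lanes of a class value, in front of a list -/
def starts (P : ℕ → Bool) (x : ℕ) (rest : List ℕ) : List ℕ :=
  forceL (Nat.mod x (2 ^ 495)) fun d =>
    Bool.rec (motive := fun _ => List ℕ) rest
      (forceL (Nat.shiftRight x 495) fun z => out z d rest 12) (P (pop d))

theorem starts_eq (P : ℕ → Bool) (x : ℕ) (rest : List ℕ) :
    starts P x rest = bif P (pop (x % 2 ^ 495)) then out (x >>> 495) (x % 2 ^ 495) rest 12
      else rest := by
  have e1 : Nat.mod x (2 ^ 495) = x % 2 ^ 495 := rfl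
  have e2 : Nat.shiftRight x 495 = x >>> 495 := rfl
  unfold starts
  rw [forceL_eq, forceL_eq, e1, e2]
  generalize x % 2 ^ 495 = d
  generalize x >>> 495 = z
  generalize out z d rest 12 = l
  cases P (pop d) <;> rfl

theorem starts_rest {P : ℕ → Bool} {x a : ℕ} {rest : List ℕ} (h : a ∈ rest) :
    a ∈ starts P x rest := by
  rw [starts_eq]
  cases P (pop (x % 2 ^ 495))
  · exact h
  · exact out_rest h 12

theorem starts_mem {P : ℕ → Bool} {x u v : ℕ} {rest : List ℕ}
    (h1 : P (pop (x % 2 ^ 495)) = true) (hu : u < 12) (hv : v < 12) (huv : u ≠ v)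
    (h2 : (x >>> 495).testBit u = true) (h3 : (x >>> 495).testBit v = true) :
    pm2 u v <<< 495 + x % 2 ^ 495 ∈ starts P x rest := by
  rw [starts_eq, h1, cond_true]
  rcases Nat.lt_or_gt_of_ne huv with h | h
  · rw [pm2_add huv, ← lane1_eq]
    exact out_mem _ _ h hv h2 h3
  · rw [pm2_comm, pm2_add huv.symm, ← lane1_eq]
    exact out_mem _ _ h hu h3 h2

theorem lane1_lt {d u v : ℕ} (hd : d < 2 ^ 495) (hu : u < v) (hv : v < 12) :
    lane1 d u v < 2 ^ 512 := by
  rw [lane1_eq, Nat.shiftLeft_eq]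
  have h1 : 2 ^ u + 2 ^ v < 4096 := by
    have h2 : 2 ^ v ≤ 2 ^ 11 := Nat.pow_le_pow_right (by norm_num) (by omega)
    have h3 : 2 ^ u < 2 ^ v := Nat.pow_lt_pow_right (by norm_num) hu
    norm_num at h2
    omega
  calc (2 ^ u + 2 ^ v) * 2 ^ 495 + d < (2 ^ u + 2 ^ v) * 2 ^ 495 + 2 ^ 495 :=
        Nat.add_lt_add_left hd _
    _ = (2 ^ u + 2 ^ v + 1) * 2 ^ 495 := by ring
    _ ≤ 2 ^ 12 * 2 ^ 495 := Nat.mul_le_mul_right _ (by omega)
    _ = 2 ^ 507 := by rw [← pow_add]
    _ ≤ 2 ^ 512 := Nat.pow_le_pow_right (by norm_num) (by norm_num)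

/-- the start lanes of the classes `lo, .., lo + n - 1` -/
def gens (P : ℕ → Bool) (tv : ℕ → ℕ) (n : ℕ) : ℕ → List ℕ :=
  Nat.rec (motive := fun _ => ℕ → List ℕ) (fun _ => [])
    (fun _ ih j => forceL (tv j) fun x => starts P x (forceL (Nat.succ j) ih)) n

theorem mem_gens {P : ℕ → Bool} {tv : ℕ → ℕ} {a : ℕ} : ∀ (n lo j : ℕ), lo ≤ j → j < lo + n →
    (∀ rest, a ∈ starts P (tv j) rest) → a ∈ gens P tv n lo := by
  intro n
  induction n with
  | zero => intro lo j h1 h2; omega
  | succ n ih =>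
    intro lo j h1 h2 h3
    have e : gens P tv (n + 1) lo =
      forceL (tv lo) fun x => starts P x (forceL (Nat.succ lo) (gens P tv n)) := rfl
    rw [e, forceL_eq]
    by_cases h : j = lo
    · subst h
      exact h3 _
    · refine starts_rest ?_
      rw [forceL_eq]
      exact ih (lo + 1) j (by omega) (by omega) h3

theorem gens_lt {P : ℕ → Bool} {tv : ℕ → ℕ} : ∀ (n lo : ℕ), ∀ a ∈ gens P tv n lo, a < 2 ^ 512 := by
  have hs : ∀ (x : ℕ) (rest : List ℕ), (∀ a ∈ rest, a < 2 ^ 512) →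
      ∀ a ∈ starts P x rest, a < 2 ^ 512 := by
    intro x rest hr
    rw [starts_eq]
    cases P (pop (x % 2 ^ 495))
    · exact hr
    · rw [cond_true]
      exact out_all hr 12 fun v hv u hu => lane1_lt (Nat.mod_lt _ (Nat.two_pow_pos _)) hu hv
  intro n
  induction n with
  | zero => intro lo a ha; exact absurd ha List.not_mem_nil
  | succ n ih =>
    intro lo a ha
    have e : gens P tv (n + 1) lo =
      forceL (tv lo) fun x => starts P x (forceL (Nat.succ lo) (gens P tv n)) := rfl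
    rw [e, forceL_eq, forceL_eq] at ha
    exact hs _ _ (ih (lo + 1)) a ha

/-! ## end lanes -/

/-- what the values `en v` of the certificates must satisfy -/
def EndOK (NT : ℕ) (G Nn : ℕ → ℕ) (ln : ℕ → ℕ → ℕ) (en : ℕ → ℕ) : Prop :=
  ∀ v, en v ≠ 0 → ∃ t < NT, ∃ k < Nn t, en v = 3072 <<< 495 + (G t <<< 210 + ln t k)

/-- **the check of the flags of the classes `lo, .., lo + n - 1`** -/
def flagsChk (P : ℕ → Bool) (tv en : ℕ → ℕ) (lo n N : ℕ) (vs : List ℕ) : Bool :=
  Nat.beq vs.length N && (Nat.beq (gens P tv n lo).length N &&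
    Nat.beq (runN (rep 512 N) net (packL 512 vs) (packL 512 (gens P tv n lo)))
      (packL 512 (vs.map en)))

/-- the statement for one class value -/
def FlagAt (P : ℕ → Bool) (NT : ℕ) (G Nn : ℕ → ℕ) (ln : ℕ → ℕ → ℕ) (x : ℕ) : Prop :=
  ∀ D : Finset (Finset (Fin 13)), (∀ s ∈ D, Sub 12 4 s) → P D.card = true →
    x = code D (zs D) →
    ∀ u v : Fin 13, u ≠ v → u ≠ 12 → v ≠ 12 → (link D u).card = 19 → (link D v).card = 19 →
    ∃ t < NT, ∃ ψ : Equiv.Perm (Fin 13), ψ 12 = 12 ∧
      ((ψ u = 11 ∧ ψ v = 10) ∨ (ψ u = 10 ∧ ψ v = 11)) ∧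
      enc 12 4 (mapF ψ D) >>> 210 = G t ∧ ∃ k < Nn t, enc 12 4 (mapF ψ D) % 2 ^ 210 = ln t k

theorem pm2_pos (u v : ℕ) : 0 < pm2 u v := by
  rcases Nat.eq_zero_or_pos (pm2 u v) with h | h
  · have h1 := testBit_pm2 u v u
    rw [h, Nat.zero_testBit, decide_eq_true rfl, Bool.true_or] at h1
    exact absurd h1 Bool.false_ne_true
  · exact h

theorem flagsChk_sound {P : ℕ → Bool} {tv en : ℕ → ℕ} {NT : ℕ} {G Nn : ℕ → ℕ} {ln : ℕ → ℕ → ℕ}
    {lo n N : ℕ} {vs : List ℕ} (hG : ∀ t < NT, G t < 2 ^ 285)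
    (hln : ∀ t < NT, ∀ k < Nn t, ln t k < 2 ^ 210) (hen : EndOK NT G Nn ln en)
    (h : flagsChk P tv en lo n N vs = true) : ∀ j, lo ≤ j → j < lo + n →
      FlagAt P NT G Nn ln (tv j) := by
  intro j hj1 hj2 D hsub hcard hx u v huv hu hv hlu hlv
  unfold flagsChk at h
  rw [Bool.and_eq_true, Bool.and_eq_true, Nat.beq_eq, Nat.beq_eq, Nat.beq_eq] at h
  obtain ⟨h1, h2, h4⟩ := h
  have hu12 : u.val < 12 := by
    have := u.isLt
    have h5 : u.val ≠ 12 := fun h => hu (Fin.ext h)
    omega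
  have hv12 : v.val < 12 := by
    have := v.isLt
    have h5 : v.val ≠ 12 := fun h => hv (Fin.ext h)
    omega
  -- the start lane
  have hmod : tv j % 2 ^ 495 = enc 12 4 D := by rw [hx, code_mod]
  have hstart : code D {{u}, {v}} = pm2 u.val v.val <<< 495 + tv j % 2 ^ 495 := by
    unfold code
    rw [enc_one_pair hu12 hv12, hmod, Nat.shiftLeft_eq, Nat.mul_comm]
  have hpop : P (pop (tv j % 2 ^ 495)) = true := by
    rw [hmod, ← Pool.Agent.Helper82.TY.card_eq_pop (by norm_num) hsub, hcard]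
  have hzu : (tv j >>> 495).testBit u.val = true := by
    rw [Nat.testBit_shiftRight, hx, testBit_code_zs D hu12]
    exact decide_eq_true hlu
  have hzv : (tv j >>> 495).testBit v.val = true := by
    rw [Nat.testBit_shiftRight, hx, testBit_code_zs D hv12]
    exact decide_eq_true hlv
  have hmem : code D {{u}, {v}} ∈ gens P tv n lo := by
    rw [hstart]
    exact mem_gens n lo j hj1 hj2 fun rest => starts_mem hpop hu12 hv12
      (fun h => huv (Fin.ext h)) hzu hzv
  obtain ⟨i, hi, hgi⟩ := List.mem_iff_getElem.1 hmem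
  have hiN : i < N := by rw [← h2]; exact hi
  have hX : fld 512 (packL 512 (gens P tv n lo)) i = code D {{u}, {v}} := by
    rw [fld_packL (gens_lt n lo) hi, hgi]
  obtain ⟨σ, hσ, h5⟩ := net_sound (P := packL 512 vs) hiN hX
  have hiv : i < vs.length := by rw [h1]; exact hiN
  -- the end lane
  have hbd : ∀ t < NT, ∀ k < Nn t, G t <<< 210 + ln t k < 2 ^ 495 := by
    intro t ht k hk
    have h6 := hG t ht
    have h7 := hln t ht k hk
    rw [Nat.shiftLeft_eq]
    calc G t * 2 ^ 210 + ln t k < G t * 2 ^ 210 + 2 ^ 210 := Nat.add_lt_add_left h7 _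
      _ = (G t + 1) * 2 ^ 210 := by ring
      _ ≤ 2 ^ 285 * 2 ^ 210 := Nat.mul_le_mul_right _ h6
      _ = 2 ^ 495 := by rw [← pow_add]
  have hlt : ∀ w, en w < 2 ^ 512 := by
    intro w
    by_cases hw : en w = 0
    · rw [hw]
      exact Nat.two_pow_pos _
    obtain ⟨t, ht, k, hk, h6⟩ := hen w hw
    rw [h6]
    have h8 := hbd t ht k hk
    have h9 : (3072 : ℕ) <<< 495 = 3072 * 2 ^ 495 := Nat.shiftLeft_eq _ _
    rw [h9]
    calc 3072 * 2 ^ 495 + (G t <<< 210 + ln t k)
        < 3072 * 2 ^ 495 + 2 ^ 495 := Nat.add_lt_add_left h8 _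
      _ = 3073 * 2 ^ 495 := by ring
      _ ≤ 2 ^ 12 * 2 ^ 495 := Nat.mul_le_mul_right _ (by norm_num)
      _ = 2 ^ 507 := by rw [← pow_add]
      _ ≤ 2 ^ 512 := Nat.pow_le_pow_right (by norm_num) (by norm_num)
  have hends : fld 512 (packL 512 (vs.map en)) i = en vs[i] := by
    rw [fld_packL (fun a ha => by
      rw [List.mem_map] at ha
      obtain ⟨w, hw, rfl⟩ := ha
      exact hlt w) (by rw [List.length_map]; exact hiv), List.getElem_map]
  rw [h4, hends, mapF_pair'] at h5
  have hσne : ∀ a : Fin 13, a ≠ 12 → (σ a).val < 12 := by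
    intro a ha
    have h6 : σ a ≠ 12 := fun h => ha (σ.injective (h.trans hσ.symm))
    have h7 := (σ a).isLt
    have h8 : (σ a).val ≠ 12 := fun h => h6 (Fin.ext h)
    omega
  generalize vs[i] = w at h5
  have hne : en w ≠ 0 := by
    rw [h5]
    unfold code
    rw [enc_one_pair (hσne u hu) (hσne v hv)]
    have h6 := Nat.mul_pos (Nat.two_pow_pos 495) (pm2_pos (σ u).val (σ v).val)
    omega
  obtain ⟨t, ht, k, hk, h6⟩ := hen w hne
  rw [h6] at h5
  have h8 := hbd t ht k hk
  have h9 : (3072 : ℕ) <<< 495 = 2 ^ 495 * 3072 := by rw [Nat.shiftLeft_eq, Nat.mul_comm]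
  rw [h9] at h5
  unfold code at h5
  have henc : enc 12 4 (mapF σ D) < 2 ^ 495 := enc_lt 12 4 _
  have h10 : enc 12 4 (mapF σ D) = G t <<< 210 + ln t k := by
    have h11 := congrArg (fun a => a % 2 ^ 495) h5
    simp only [Nat.mul_add_mod] at h11
    rw [Nat.mod_eq_of_lt h8, Nat.mod_eq_of_lt henc] at h11
    exact h11.symm
  have h12 : enc 12 1 ({{σ u}, {σ v}} : Finset (Finset (Fin 13))) = 3072 := by
    rw [h10] at h5
    have h13 := Nat.add_right_cancel h5
    exact (Nat.eq_of_mul_eq_mul_left (Nat.two_pow_pos 495) h13).symm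
  have h7 := hln t ht k hk
  refine ⟨t, ht, σ, hσ, ?_, ?_, k, hk, ?_⟩
  · have hb : ∀ i, ∀ hi : i < 12, (3072 : ℕ).testBit i = true →
        (⟨i, by omega⟩ : Fin 13) = σ u ∨ (⟨i, by omega⟩ : Fin 13) = σ v := by
      intro i hi hb
      have h14 := testBit_enc_one {{σ u}, {σ v}} hi
      rw [h12, hb] at h14
      have h15 := of_decide_eq_true h14.symm
      rw [mem_insert, mem_singleton, singleton_inj, singleton_inj] at h15
      exact h15
    have h11 : (11 : Fin 13) = σ u ∨ (11 : Fin 13) = σ v := hb 11 (by norm_num) (by decide)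
    have h10' : (10 : Fin 13) = σ u ∨ (10 : Fin 13) = σ v := hb 10 (by norm_num) (by decide)
    rcases h11 with h11 | h11
    · left
      refine ⟨h11.symm, ?_⟩
      rcases h10' with h10' | h10'
      · exact absurd (h10'.trans h11.symm) (by decide)
      · exact h10'.symm
    · right
      refine ⟨?_, h11.symm⟩
      rcases h10' with h10' | h10'
      · exact h10'.symm
      · exact absurd (h10'.trans h11.symm) (by decide)
  · rw [h10, Nat.shiftLeft_eq, Nat.shiftRight_eq_div_pow, Nat.mul_comm,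
      Nat.mul_add_div (Nat.two_pow_pos 210)]
    have h16 : ln t k / 2 ^ 210 = 0 := Nat.div_eq_of_lt h7
    rw [h16, Nat.add_zero]
  · rw [h10, Nat.shiftLeft_eq, Nat.mul_comm, Nat.mul_add_mod]
    exact Nat.mod_eq_of_lt h7

/-- the classes of a table of values -/
def repsOf (nc : ℕ) (tv : ℕ → ℕ) : List ℕ := (List.range nc).map fun j => tv j % 2 ^ 495

/-- **the flags from the checks** -/
theorem gFlagOK_of_checks {P : ℕ → Bool} {nc : ℕ} {tv : ℕ → ℕ} (htv : ∀ j < nc, Good 6 (tv j)) {NT : ℕ}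
    {G Nn : ℕ → ℕ} {ln : ℕ → ℕ → ℕ} (h : ∀ j < nc, FlagAt P NT G Nn ln (tv j)) :
    GFlagOK P (repsOf nc tv) NT G (fun t => {R | ∃ k < Nn t, R = ln t k}) := by
  intro r hr hcard u v huv hu hv hlu hlv
  unfold repsOf at hr
  rw [List.mem_map] at hr
  obtain ⟨j, hj, rfl⟩ := hr
  rw [List.mem_range] at hj
  obtain ⟨D, hD, -, hx⟩ := htv j hj
  have hsub := sub_twelve hD
  have hfam : fam 12 4 (tv j % 2 ^ 495) = D := by
    rw [hx, code_mod, fam_enc (by norm_num) hsub]
  rw [hfam] at hcard hlu hlv ⊢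
  obtain ⟨t, ht, ψ, h1, h2, h3, k, hk, h4⟩ := h j hj D hsub hcard hx u v huv hu hv hlu hlv
  exact ⟨t, ht, ψ, h1, h2, h3, k, hk, h4⟩

end Pool.Agent.Helper67.TY
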