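import Pool.Agent.Helper67.TY.GRun

/-!
MP_8ee768_co, project TH-Y': the kernel checks of the isomorphisms of the glued types, in the form
of the generated modules.
-/

set_option autoImplicit false
set_option maxRecDepth 100000

namespace Pool.Agent.Helper67.TY

open Finset
open Pool.Agent.Helper89.CV (OddCover ofMask)
open Pool.Agent.Helper97.CV
open Pool.Agent.Helper79.CV
open Pool.Agent.Helper67.GT (NT gG gN lane gP gPiece)

/-- record of a type without automorphisms and record with the permutations of the lanes -/
abbrev IRec : Type := ℕ × List (List ℕ) × List (List ℕ)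

/-- checks of `t, t + 1, ..` -/
def runG (chk : ℕ → IRec → Bool) (l : List IRec) : ℕ → Bool :=
  List.rec (motive := fun _ => ℕ → Bool) (fun _ => true)
    (fun a _ ih t => Bool.rec (motive := fun _ => Bool) false (forceB (Nat.succ t) ih)
      (chk t a)) l

theorem runG_sound {chk : ℕ → IRec → Bool} {Q : ℕ → Prop} (hQ : ∀ t a, chk t a = true → Q t) :
    ∀ (l : List IRec) (lo : ℕ), runG chk l lo = true → ∀ t, lo ≤ t → t < lo + l.length → Q t := by
  intro l
  induction l with
  | nil => intro lo _ t h1 h2; simp only [List.length_nil] at h2; omega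
  | cons a l ih =>
    intro lo h t h1 h2
    have e : runG chk (a :: l) lo = Bool.rec (motive := fun _ => Bool) false
      (forceB (Nat.succ lo) (runG chk l)) (chk lo a) := rfl
    rw [e] at h
    cases h3 : chk lo a
    · rw [h3] at h
      exact absurd h Bool.false_ne_true
    · rw [h3] at h
      have h4 : forceB (Nat.succ lo) (runG chk l) = true := h
      rw [forceB_eq] at h4
      by_cases h5 : t = lo
      · subst h5
        exact hQ t a h3
      · refine ih (lo + 1) h4 t (by omega) ?_
        rw [List.length_cons] at h2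
        omega

/-- a lane, the index of the piece is evaluated first -/
noncomputable def laneF (t k : ℕ) : ℕ :=
  forceN (Nat.add (gP t) (Nat.div k 64)) fun i =>
    Nat.mod (Nat.shiftRight (gPiece i) (Nat.mul 210 (Nat.mod k 64))) (2 ^ 210)

theorem laneF_eq : laneF = lane := by
  funext t k
  unfold laneF
  rw [forceN_eq]
  rfl

/-- the checks of the types `t, t + 1, ..` -/
noncomputable def isoRun (l : List IRec) : ℕ → Bool :=
  runG (fun t a => isoChk gG gN laneF t a.1 a.2.1 a.2.2) l

/-- the types `lo, .., hi - 1` -/
def IsoSeg (lo hi : ℕ) : Prop :=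
  ∀ t, lo ≤ t → t < hi → IsoAt (gG t <<< 210) (gN t) (lane t)

theorem IsoSeg.app {a b c : ℕ} (h : IsoSeg a b) (h' : IsoSeg b c) : IsoSeg a c := by
  intro j h1 h2
  by_cases h3 : j < b
  · exact h j h1 h3
  · exact h' j (by omega) h2

theorem isoRun_sound (l : List IRec) (lo : ℕ) (h : isoRun l lo = true) :
    IsoSeg lo (lo + l.length) :=
  runG_sound (fun t a h => by
    rw [laneF_eq] at h
    exact isoChk_sound (gG_lt t) (fun k _ => lane_lt t k) h) l lo h

theorem isoSeg {lo hi : ℕ} {l : List IRec} (h : isoRun l lo = true)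
    (hl : Nat.beq (Nat.add lo l.length) hi = true) : IsoSeg lo hi := by
  rw [Nat.beq_eq] at hl
  have h1 := isoRun_sound l lo h
  have e : Nat.add lo l.length = lo + l.length := rfl
  rw [e] at hl
  rw [hl] at h1
  exact h1

/-! ## the keys increase -/

/-- the key of a type -/
noncomputable def gKey (t : ℕ) : ℕ := forceN (Nat.shiftLeft (gG t) 210) keyX

theorem gKey_eq (t : ℕ) : gKey t = keyX (gG t <<< 210) := forceN_eq _ _

/-- the keys of `t, t + 1, .., t + n` increase, `k` = key of `t` -/
noncomputable def keyRun (n : ℕ) : ℕ → ℕ → Bool :=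
  Nat.rec (motive := fun _ => ℕ → ℕ → Bool) (fun _ _ => true)
    (fun _ ih t k => forceB (Nat.succ t) fun t' => forceB (gKey t') fun k' =>
      Bool.rec (motive := fun _ => Bool) false (ih t' k') (lowC k k')) n

theorem keyRun_sound : ∀ (n t : ℕ), keyRun n t (gKey t) = true → ∀ s, t ≤ s → s < t + n →
    LowLt (keyX (gG s <<< 210)) (keyX (gG (s + 1) <<< 210)) := by
  intro n
  induction n with
  | zero => intro t _ s h1 h2; omega
  | succ n ih =>
    intro t h s h1 h2
    have e : keyRun (n + 1) t (gKey t) = forceB (Nat.succ t) fun t' => forceB (gKey t') fun k' =>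
      Bool.rec (motive := fun _ => Bool) false (keyRun n t' k') (lowC (gKey t) k') := rfl
    rw [e, forceB_eq, forceB_eq] at h
    cases h3 : lowC (gKey t) (gKey (Nat.succ t))
    · rw [h3] at h
      exact absurd h Bool.false_ne_true
    · rw [h3] at h
      by_cases h5 : s = t
      · subst h5
        have h6 := lowC_sound h3
        rw [gKey_eq, gKey_eq] at h6
        exact h6
      · exact ih (t + 1) h s (by omega) (by omega)

/-- part of the keys -/
def KeySeg (lo hi : ℕ) : Prop :=
  ∀ s, lo ≤ s → s < hi → LowLt (keyX (gG s <<< 210)) (keyX (gG (s + 1) <<< 210))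

theorem keySeg {lo n : ℕ} (h : keyRun n lo (gKey lo) = true) : KeySeg lo (lo + n) :=
  keyRun_sound n lo h

theorem KeySeg.app {a b c : ℕ} (h : KeySeg a b) (h' : KeySeg b c) : KeySeg a c := by
  intro j h1 h2
  by_cases h3 : j < b
  · exact h j h1 h3
  · exact h' j (by omega) h2

theorem keyInc_of_seg (h : KeySeg 0 10273) : KeyInc NT gG := by
  intro t ht
  have e : NT = 10274 := rfl
  rw [e] at ht
  exact h t (Nat.zero_le _) (by omega)

end Pool.Agent.Helper67.TY
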