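import Mathlib

/-!
MP_8ee768_co, project TH-Y': the order by the lowest different bit.
-/

set_option autoImplicit false

namespace Pool.Agent.Helper67.TY

/-- at the lowest place where the bits differ the bit of `a` is set -/
def LowLt (a b : ℕ) : Prop :=
  ∃ k, a.testBit k = true ∧ b.testBit k = false ∧ ∀ i < k, a.testBit i = b.testBit i

theorem LowLt.trans {a b c : ℕ} (h : LowLt a b) (h' : LowLt b c) : LowLt a c := by
  obtain ⟨k, h1, h2, h3⟩ := h
  obtain ⟨l, h4, h5, h6⟩ := h'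
  rcases Nat.lt_trichotomy k l with hkl | hkl | hkl
  · exact ⟨k, h1, by rw [← h6 k hkl]; exact h2, fun i hi => (h3 i hi).trans (h6 i (by omega))⟩
  · subst hkl
    rw [h2] at h4
    exact absurd h4 Bool.false_ne_true
  · exact ⟨l, by rw [h3 l hkl]; exact h4, h5, fun i hi => (h3 i (by omega)).trans (h6 i hi)⟩

theorem LowLt.irrefl {a : ℕ} (h : LowLt a a) : False := by
  obtain ⟨k, h1, h2, -⟩ := h
  rw [h1] at h2
  exact Bool.noConfusion h2

theorem LowLt.asymm {a b : ℕ} (h : LowLt a b) (h' : LowLt b a) : False :=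
  (h.trans h').irrefl

/-- the kernel test for `LowLt` -/
def lowC (a b : ℕ) : Bool :=
  !Nat.beq (Nat.land a (Nat.land (Nat.xor a b)
    (Nat.xor (Nat.xor a b) (Nat.sub (Nat.xor a b) 1)))) 0

theorem low_bit {x j : ℕ} (h : (x &&& (x ^^^ (x - 1))).testBit j = true) :
    x.testBit j = true ∧ ∀ i < j, x.testBit i = false := by
  rw [Nat.testBit_and, Bool.and_eq_true] at h
  obtain ⟨hj, h2⟩ := h
  refine ⟨hj, ?_⟩
  have hx : x ≠ 0 := by
    rintro rfl
    rw [Nat.zero_testBit] at hj
    exact Bool.false_ne_true hj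
  obtain ⟨k, m, ⟨q, hq⟩, hxk⟩ := Nat.exists_eq_two_pow_mul_odd hx
  have hp := Nat.two_pow_pos k
  have e1 : x = 2 ^ k * (2 * q + 1) + 0 := by rw [hxk, hq, Nat.add_zero]
  have e2 : x - 1 = 2 ^ k * (2 * q) + (2 ^ k - 1) := by
    rw [hxk, hq, Nat.mul_add, Nat.mul_one]
    omega
  have b1 : ∀ i, x.testBit i = if i < k then (0 : ℕ).testBit i else (2 * q + 1).testBit (i - k) := by
    intro i
    rw [e1]
    exact Nat.testBit_two_pow_mul_add _ hp _
  have b2 : ∀ i, (x - 1).testBit i =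
      if i < k then (2 ^ k - 1).testBit i else (2 * q).testBit (i - k) := by
    intro i
    rw [e2]
    exact Nat.testBit_two_pow_mul_add _ (by omega) _
  have hjk : j = k := by
    rw [Nat.testBit_xor, hj, b2 j] at h2
    have h3 := hj
    rw [b1 j] at h3
    by_cases h4 : j < k
    · rw [if_pos h4, Nat.zero_testBit] at h3
      exact absurd h3 Bool.false_ne_true
    · by_contra h5
      obtain ⟨i, hi⟩ : ∃ i, j - k = i + 1 := ⟨j - k - 1, by omega⟩
      rw [if_neg h4, hi, Nat.testBit_succ] at h2 h3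
      have e3 : 2 * q / 2 = (2 * q + 1) / 2 := by omega
      rw [e3, h3] at h2
      exact Bool.noConfusion h2
  intro i hi
  rw [b1 i, if_pos (by omega), Nat.zero_testBit]

theorem lowC_sound {a b : ℕ} (h : lowC a b = true) : LowLt a b := by
  unfold lowC at h
  rw [Bool.not_eq_true', Bool.eq_false_iff, Ne, Nat.beq_eq] at h
  have h1 : a &&& ((a ^^^ b) &&& ((a ^^^ b) ^^^ ((a ^^^ b) - 1))) ≠ 0 := h
  obtain ⟨k, hk⟩ := Nat.exists_testBit_of_ne_zero h1
  rw [Nat.testBit_and, Bool.and_eq_true] at hk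
  obtain ⟨h2, h3⟩ := low_bit hk.2
  refine ⟨k, hk.1, ?_, fun i hi => ?_⟩
  · rw [Nat.testBit_xor, hk.1] at h2
    cases h4 : b.testBit k
    · rfl
    · rw [h4] at h2
      exact Bool.noConfusion h2
  · have h4 := h3 i hi
    rw [Nat.testBit_xor] at h4
    cases h5 : a.testBit i <;> cases h6 : b.testBit i <;> rw [h5, h6] at h4 <;>
      first | rfl | exact Bool.noConfusion h4

end Pool.Agent.Helper67.TY
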