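import Pool.Agent.Helper67.TY.Glued
import Pool.Agent.Helper67.TY.IsosD
import Pool.Agent.Helper67.TY.Low

/-!
MP_8ee768_co, project TH-Y': the isomorphisms of the glued types.

The link of `11` in a type is one of seven canonical systems, whose isomorphisms fixing `10` are
known (`iso_canon`); so the images of a type under all isomorphisms onto types are computed with a
few words (one word exchanging `10` and `11` brings the link of `10` to a canonical system). The
code of the type is minimal among them (`LowLt` of the keys), and when an image is the type itself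
the table is closed (`clW`).
-/

set_option autoImplicit false
set_option maxRecDepth 100000

namespace Pool.Agent.Helper67.TY

open Finset
open Pool.Agent.Helper89.CV (OddCover ofMask)
open Pool.Agent.Helper97.CV
open Pool.Agent.Helper79.CV
open Pool.Agent.Helper63.SIMD
open Pool.Agent.Helper82.TY (below pop)
open Pool.Agent.Helper91.TY (wp wp_fix wp_append runW runW_append appP app sw sw_eq fld_appP
  okEx_mono okEx_of_chk)

/-- evaluation of the argument first -/
def forceLI (n : ℕ) (f : ℕ → List ℕ) : List ℕ := Nat.rec (f 0) (fun k _ => f (Nat.succ k)) n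

/-- evaluation of the argument first -/
def forceB (n : ℕ) (f : ℕ → Bool) : Bool := Nat.rec (f 0) (fun k _ => f (Nat.succ k)) n

theorem forceB_eq (n : ℕ) (f : ℕ → Bool) : forceB n f = f n := by cases n <;> rfl

/-! ## words -/

/-- a word on all lanes -/
def runL (R : ℕ) (w : List ℕ) : ℕ → ℕ :=
  List.rec (motive := fun _ => ℕ → ℕ) (fun x => x) (fun a _ ih x => ih (k12 R a x)) w

theorem fld_runL {N : ℕ} {w : List ℕ} (hw : ∀ a ∈ w, a < 11) (X : ℕ) {i : ℕ} (hi : i < N) :
    fld 512 (runL (rep 512 N) w X) i = runW tab12 w (fld 512 X i) := by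
  induction w generalizing X with
  | nil => rfl
  | cons a w ih =>
    have h1 := hw a List.mem_cons_self
    show fld 512 (runL (rep 512 N) w (k12 (rep 512 N) a X)) i = runW tab12 w (app (tab12 a) (fld 512 X i))
    rw [ih (fun b hb => hw b (List.mem_cons_of_mem _ hb)), k12_eq _ h1,
      fld_appP (okEx_mono (by rw [choose_12]; norm_num) (okEx_of_chk (chk_tab12 _ h1))) hi]

theorem appP_one (l : List (ℕ × ℕ)) (x : ℕ) : appP 1 l x = app l x := by
  induction l generalizing x with
  | nil => rfl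
  | cons p l ihl =>
    show appP 1 l (sw p.1 p.2 1 x) = app l _
    rw [sw_eq, Nat.mul_one, ihl]

theorem runL_one {w : List ℕ} (hw : ∀ a ∈ w, a < 11) (X : ℕ) : runL 1 w X = runW tab12 w X := by
  induction w generalizing X with
  | nil => rfl
  | cons a w ih =>
    have h1 := hw a List.mem_cons_self
    show runL 1 w (k12 1 a X) = runW tab12 w (app (tab12 a) X)
    rw [ih (fun b hb => hw b (List.mem_cons_of_mem _ hb)), k12_eq _ h1, appP_one]

/-! ## packed lists -/

/-- packed list of the values of a function -/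
def pkN (n : ℕ) (f : ℕ → ℕ) : ℕ :=
  Nat.rec (motive := fun _ => ℕ) 0 (fun i ih => Nat.add ih (Nat.shiftLeft (f i) (Nat.mul 512 i))) n

theorem pkN_eq (n : ℕ) (f : ℕ → ℕ) : pkN n f = pk 512 n f := by
  induction n with
  | zero => exact pk_zero.symm
  | succ n ih =>
    rw [pk_succ, ← ih]
    show pkN n f + f n <<< (512 * n) = _
    rw [Nat.shiftLeft_eq]

/-- entry `i` of a packed permutation -/
def pf (P i : ℕ) : ℕ := Nat.mod (Nat.shiftRight P (Nat.mul 13 i)) 8192

/-- all entries are below `N` -/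
def pfLt (N P n : ℕ) : Bool :=
  Nat.rec (motive := fun _ => Bool) true (fun i ih => bif Nat.blt (pf P i) N then ih else false) n

theorem pfLt_sound {N P n : ℕ} (h : pfLt N P n = true) : ∀ i < n, pf P i < N := by
  induction n with
  | zero => intro i hi; omega
  | succ n ih =>
    have h1 : (bif Nat.blt (pf P n) N then pfLt N P n else false) = true := h
    cases h2 : Nat.blt (pf P n) N
    · rw [h2] at h1
      exact absurd h1 Bool.false_ne_true
    · rw [h2, cond_true] at h1
      rw [Nat.blt_eq] at h2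
      intro i hi
      by_cases h3 : i = n
      · rw [h3]; exact h2
      · exact ih h1 i (by omega)

/-- the lanes `k0, .., k0 + n - 1` are moved to lanes by the word `w` -/
def clB (X N : ℕ) (lt : ℕ → ℕ) (w : List ℕ) (k0 n P : ℕ) : Bool :=
  pfLt N P n &&
    Nat.beq (runL (rep 512 n) w (pkN n fun i => Nat.add X (lt (Nat.add k0 i))))
      (pkN n fun i => Nat.add X (lt (pf P i)))

theorem clB_sound {X N : ℕ} {lt : ℕ → ℕ} {w : List ℕ} {k0 n P : ℕ} (hw : ∀ a ∈ w, a < 11)
    (hlt : ∀ k < N, X + lt k < 2 ^ 495) (hk : k0 + n ≤ N) (h : clB X N lt w k0 n P = true) :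
    ∀ k, k0 ≤ k → k < k0 + n → ∃ k' < N, runW tab12 w (X + lt k) = X + lt k' := by
  unfold clB at h
  rw [Bool.and_eq_true, Nat.beq_eq, pkN_eq, pkN_eq] at h
  obtain ⟨h1, h2⟩ := h
  have h3 := pfLt_sound h1
  have h512 : (2 : ℕ) ^ 495 ≤ 2 ^ 512 := Nat.pow_le_pow_right (by norm_num) (by norm_num)
  intro k hk1 hk2
  obtain ⟨i, rfl⟩ : ∃ i, k = k0 + i := ⟨k - k0, by omega⟩
  have hi : i < n := by omega
  refine ⟨pf P i, h3 i hi, ?_⟩
  have h4 : fld 512 (runL (rep 512 n) w (pk 512 n fun i => Nat.add X (lt (Nat.add k0 i)))) i =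
      fld 512 (pk 512 n fun i => Nat.add X (lt (pf P i))) i := by rw [h2]
  have h5 : ∀ j < n, (fun i => Nat.add X (lt (Nat.add k0 i))) j < 2 ^ 512 := fun j hj =>
    lt_of_lt_of_le (hlt (k0 + j) (by omega)) h512
  have h6 : ∀ j < n, (fun i => Nat.add X (lt (pf P i))) j < 2 ^ 512 := fun j hj =>
    lt_of_lt_of_le (hlt _ (h3 j hj)) h512
  rw [fld_runL hw _ hi, fld_pk h5 hi, fld_pk h6 hi] at h4
  exact h4

/-- all lanes from `k0` on are moved to lanes by the word `w`, blocks of 64 lanes -/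
def clW (X N : ℕ) (lt : ℕ → ℕ) (w : List ℕ) : ℕ → List ℕ → Bool
  | k0, [] => Nat.ble N k0
  | k0, P :: Ps =>
    bif Nat.ble (Nat.add k0 64) N then clB X N lt w k0 64 P && clW X N lt w (Nat.add k0 64) Ps
    else clB X N lt w k0 (Nat.sub N k0) P

theorem clW_sound {X N : ℕ} {lt : ℕ → ℕ} {w : List ℕ} (hw : ∀ a ∈ w, a < 11)
    (hlt : ∀ k < N, X + lt k < 2 ^ 495) (Ps : List ℕ) : ∀ k0, clW X N lt w k0 Ps = true →
    ∀ k, k0 ≤ k → k < N → ∃ k' < N, runW tab12 w (X + lt k) = X + lt k' := by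
  induction Ps with
  | nil =>
    intro k0 h k h1 h2
    have h3 : Nat.ble N k0 = true := h
    rw [Nat.ble_eq] at h3
    omega
  | cons P Ps ih =>
    intro k0 h k h1 h2
    have h3 : (bif Nat.ble (Nat.add k0 64) N then
      clB X N lt w k0 64 P && clW X N lt w (Nat.add k0 64) Ps
      else clB X N lt w k0 (Nat.sub N k0) P) = true := h
    cases h4 : Nat.ble (Nat.add k0 64) N
    · rw [h4, cond_false] at h3
      have e : Nat.sub N k0 = N - k0 := rfl
      rw [e] at h3
      exact clB_sound hw hlt (by omega) h3 k h1 (by omega)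
    · rw [h4, cond_true, Bool.and_eq_true] at h3
      rw [Nat.ble_eq] at h4
      have e : Nat.add k0 64 = k0 + 64 := rfl
      rw [e] at h3 h4
      by_cases h5 : k < k0 + 64
      · exact clB_sound hw hlt h4 h3.1 k h1 h5
      · exact ih (k0 + 64) h3.2 k (by omega) h2

/-! ## the check of a type -/

/-- the key of a code (blocks meeting `{10, 11}`), first the link of `11`, then the link of `10` -/
def keyX (X : ℕ) : ℕ :=
  Nat.add (Nat.mod (Nat.shiftRight X 455) 2) (Nat.mul 2 (Nat.add (Nat.shiftRight X 330)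
    (Nat.shiftLeft (Nat.mod (Nat.shiftRight X 210) (2 ^ 120)) 165)))

theorem shr_shl (Y i : ℕ) : (Y >>> 210 <<< 210) >>> (210 + i) = Y >>> (210 + i) := by
  refine Nat.eq_of_testBit_eq fun j => ?_
  rw [Nat.testBit_shiftRight, Nat.testBit_shiftRight, Nat.testBit_shiftLeft,
    Nat.testBit_shiftRight, decide_eq_true (by omega), Bool.true_and]
  congr 1
  omega

/-- the key depends only on the blocks meeting `{10, 11}` -/
theorem keyX_top (Y : ℕ) : keyX (Y >>> 210 <<< 210) = keyX Y := by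
  have h1 : (Y >>> 210 <<< 210) >>> 455 = Y >>> 455 := shr_shl Y 245
  have h2 : (Y >>> 210 <<< 210) >>> 330 = Y >>> 330 := shr_shl Y 120
  have h3 : (Y >>> 210 <<< 210) >>> 210 = Y >>> 210 := shr_shl Y 0
  have e : ∀ Z : ℕ, keyX Z = Z >>> 455 % 2 + 2 * (Z >>> 330 + (Z >>> 210 % 2 ^ 120) <<< 165) :=
    fun Z => rfl
  rw [e, e, h1, h2, h3]

/-- one image; `S` = code with a salt in the lower part, `Y` = its image -/
def evt (X S N : ℕ) (lt : ℕ → ℕ) (w : List ℕ) (Ps : List ℕ) (Y : ℕ) : Bool :=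
  bif Nat.beq (Nat.shiftRight Y 210) (Nat.shiftRight S 210) then clW X N lt w 0 Ps
  else lowC (keyX S) (keyX Y)

/-- images fixing `10` and `11` -/
def loopU (X S N : ℕ) (lt : ℕ → ℕ) : List (List ℕ) → List (List ℕ) → Bool
  | [], _ => true
  | w :: ws, ps => (w.isEmpty || forceB (runL 1 w S) (evt X S N lt w (ps.headD []))) &&
      loopU X S N lt ws ps.tail

/-- images exchanging `10` and `11` -/
def loopS (X S Q N : ℕ) (lt : ℕ → ℕ) (v : List ℕ) : List (List ℕ) → List (List ℕ) → Bool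
  | [], _ => true
  | w :: ws, ps => forceB (runL 1 w Q) (evt X S N lt (v ++ w) (ps.headD [])) &&
      loopS X S Q N lt v ws ps.tail

theorem loopU_sound {X S N : ℕ} {lt : ℕ → ℕ} {ws : List (List ℕ)} : ∀ {ps : List (List ℕ)},
    loopU X S N lt ws ps = true → ∀ w ∈ ws, w = [] ∨ ∃ Ps, evt X S N lt w Ps (runL 1 w S) = true := by
  induction ws with
  | nil => intro ps _ w hw; exact absurd hw List.not_mem_nil
  | cons w' ws ih =>
    intro ps h w hw
    have h1 : ((w'.isEmpty || forceB (runL 1 w' S) (evt X S N lt w' (ps.headD []))) &&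
      loopU X S N lt ws ps.tail) = true := h
    rw [Bool.and_eq_true, Bool.or_eq_true, List.isEmpty_iff, forceB_eq] at h1
    rcases List.mem_cons.1 hw with rfl | hw
    · rcases h1.1 with h2 | h2
      · exact Or.inl h2
      · exact Or.inr ⟨_, h2⟩
    · exact ih h1.2 w hw

theorem loopS_sound {X S Q N : ℕ} {lt : ℕ → ℕ} {v : List ℕ} {ws : List (List ℕ)} :
    ∀ {ps : List (List ℕ)}, loopS X S Q N lt v ws ps = true →
      ∀ w ∈ ws, ∃ Ps, evt X S N lt (v ++ w) Ps (runL 1 w Q) = true := by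
  induction ws with
  | nil => intro ps _ w hw; exact absurd hw List.not_mem_nil
  | cons w' ws ih =>
    intro ps h w hw
    have h1 : (forceB (runL 1 w' Q) (evt X S N lt (v ++ w') (ps.headD [])) &&
      loopS X S Q N lt v ws ps.tail) = true := h
    rw [Bool.and_eq_true, forceB_eq] at h1
    rcases List.mem_cons.1 hw with rfl | hw
    · exact ⟨_, h1.1⟩
    · exact ih h1.2 w hw

/-- the `n` hexadecimal digits of a number, lowest first -/
def dgs (n : ℕ) : ℕ → List ℕ :=
  Nat.rec (motive := fun _ => ℕ → List ℕ) (fun _ => [])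
    (fun _ ih x => Nat.mod x 16 :: forceLI (Nat.shiftRight x 4) ih) n

/-- the salt (the hash of a literal depends on its lowest bits only) -/
def salt (t : ℕ) : ℕ := Nat.mod (Nat.mul t 0x10004001000400100040010004001000400100040010004001) (2 ^ 210)

theorem salt_lt (t : ℕ) : salt t < 2 ^ 210 := Nat.mod_lt _ (Nat.two_pow_pos _)

/-- **the check of a type** with the record `r` (indices of the canonical systems and the word) -/
def isoChk (G Nn : ℕ → ℕ) (ln : ℕ → ℕ → ℕ) (t r : ℕ) (pu ps : List (List ℕ)) : Bool :=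
  forceB (Nat.add (Nat.shiftLeft (G t) 210) (salt t)) fun S =>
    forceB (Nat.mod r 8) fun ci => forceB (Nat.mod (Nat.div r 8) 8) fun di =>
    Nat.blt ci 7 && (Nat.blt di 7 &&
    ((dgs (Nat.mod (Nat.shiftRight r 6) 64) (Nat.shiftRight r 12)).all (fun a => Nat.blt a 9) &&
    (Nat.beq (Nat.shiftRight S 330) (cC ci) &&
    (loopU (Nat.shiftLeft (G t) 210) S (Nn t) (ln t) (cS ci) pu &&
    forceB (runL 1 (10 :: dgs (Nat.mod (Nat.shiftRight r 6) 64) (Nat.shiftRight r 12)) S) fun Q =>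
      Nat.beq (Nat.shiftRight Q 330) (cC di) && loopS (Nat.shiftLeft (G t) 210) S Q (Nn t) (ln t)
        (10 :: dgs (Nat.mod (Nat.shiftRight r 6) 64) (Nat.shiftRight r 12)) (cS di) ps))))

/-- what the check of a type gives -/
structure IsoAt (X N : ℕ) (lt : ℕ → ℕ) : Prop where
  can : ∃ j < 7, X >>> 330 = cC j
  card11 : (link (fam 12 4 X) 11).card = 19
  card10 : (link (fam 12 4 X) 10).card = 19
  img : ∀ ρ : Equiv.Perm (Fin 13), Fix2 ρ →
    (∃ j < 7, enc 12 4 (mapF ρ (fam 12 4 X)) >>> 330 = cC j) →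
    (enc 12 4 (mapF ρ (fam 12 4 X)) = X ∨
      LowLt (keyX X) (keyX (enc 12 4 (mapF ρ (fam 12 4 X))))) ∧
    (enc 12 4 (mapF ρ (fam 12 4 X)) = X →
      ∀ k < N, ∃ k' < N, enc 10 4 (mapF ρ (fam 10 4 (lt k))) = lt k')

theorem enc_low2 (D : Finset (Finset (Fin 13))) : enc 10 4 (low2 D) = enc 10 4 D := by
  refine Nat.eq_of_testBit_eq fun i => ?_
  by_cases hi : i < (L 10 4).length
  · have h2 : (L 10 4)[i] < 1024 := by
      have h := lt_of_mem_L (List.getElem_mem hi)
      norm_num at h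
      exact h
    rw [testBit_enc _ hi, testBit_enc _ hi]
    unfold low2
    rw [decide_eq_decide, mem_filter, mem_hi (by omega)]
    exact ⟨fun h => h.1, fun h => ⟨h, not_not.2 h2⟩⟩
  · rw [testBit_enc_ge _ (by omega), testBit_enc_ge _ (by omega)]

theorem card_cC : ∀ i < 7, pop (cC i) = 19 := by decide +kernel

theorem card_fam_cC {i : ℕ} (hi : i < 7) : (fam 11 3 (cC i)).card = 19 := by
  rw [Pool.Agent.Helper82.TY.card_eq_pop (n := 11) (k := 3) (by norm_num)
    (fun s hs => sub_of_mem_fam (by norm_num) hs), enc_fam (by norm_num) (cC_lt i hi)]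
  exact card_cC i hi

/-- the link of `11` from the code -/
theorem link_of_code {D : Finset (Finset (Fin 13))} (hD : ∀ s ∈ D, Sub 12 4 s) {T : ℕ}
    (h : enc 12 4 D >>> 330 = T) : link D 11 = fam 11 3 T := by
  have e1 : enc 12 4 D >>> 330 = enc 11 3 (link D 11) := enc_shift (11 : Fin 13) 3 D
  rw [← h, e1, fam_enc (by norm_num)]
  intro s hs
  rw [mem_link] at hs
  have h1 := hD _ hs.2
  constructor
  · refine mk_lt_iff.2 fun a ha => ?_
    have h2 := mk_lt_iff.1 h1.1 a (mem_insert_of_mem ha)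
    have h3 : a ≠ 11 := by
      rintro rfl
      exact hs.1 ha
    have h4 : a.val ≠ 11 := fun h => h3 (Fin.ext h)
    omega
  · have h2 := h1.2
    rw [card_insert_of_notMem hs.1] at h2
    omega

/-- the closure of the lanes from the closure of the codes -/
theorem lanes_of_codes {X R R' : ℕ} (hR : R < 2 ^ 210) (hR' : R' < 2 ^ 210) (hX0 : X % 2 ^ 210 = 0)
    (hXR : X + R < 2 ^ 495) {w : List ℕ} (hw : ∀ a ∈ w, a < 11)
    (hρ : Fix2 (wp w)) (h : runW tab12 w (X + R) = X + R') :
    enc 10 4 (mapF (wp w) (fam 10 4 R)) = R' := by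
  set D := fam 12 4 (X + R) with hDdef
  have hD : ∀ s ∈ D, Sub 12 4 s := fun s hs => sub_of_mem_fam (by norm_num) hs
  have hE : enc 12 4 D = X + R := enc_fam (by norm_num) (by rw [choose_12_4]; exact hXR)
  have hmod : ∀ r, r < 2 ^ 210 → (X + r) % 2 ^ 210 = r := by
    intro r hr
    rw [Nat.add_mod, hX0, Nat.zero_add, Nat.mod_mod, Nat.mod_eq_of_lt hr]
  have h1 : fam 10 4 R = low2 D := by
    rw [← fam_low hD, ← enc_low, hE, hmod R hR]
  rw [← hE, runW_tab12 hw] at h
  rw [h1, mapF_low2 hρ, enc_low2, ← enc_low, h, hmod R' hR']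

theorem isoChk_sound {G Nn : ℕ → ℕ} {ln : ℕ → ℕ → ℕ} {t r : ℕ} {pu ps : List (List ℕ)}
    (hG : G t < 2 ^ 285) (hln : ∀ k < Nn t, ln t k < 2 ^ 210)
    (h : isoChk G Nn ln t r pu ps = true) : IsoAt (G t <<< 210) (Nn t) (ln t) := by
  unfold isoChk at h
  rw [forceB_eq, forceB_eq, forceB_eq] at h
  simp only [forceB_eq, Bool.and_eq_true, Nat.blt_eq, Nat.beq_eq] at h
  obtain ⟨hci, hdi, hv, hXc, hU, hQc, hS⟩ := h
  set ci := Nat.mod r 8
  set di := Nat.mod (Nat.div r 8) 8
  set v' := dgs (Nat.mod (Nat.shiftRight r 6) 64) (Nat.shiftRight r 12)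
  have eX : Nat.shiftLeft (G t) 210 = G t <<< 210 := rfl
  rw [eX] at hXc hU hQc hS
  have hsalt := salt_lt t
  generalize salt t = sa at hsalt hXc hU hQc hS
  have hX0 : (G t <<< 210) % 2 ^ 210 = 0 := by
    rw [Nat.shiftLeft_eq, Nat.mul_mod_left]
  have hXR' : ∀ y, y < 2 ^ 210 → G t <<< 210 + y < 2 ^ 495 := by
    intro y hy
    rw [Nat.shiftLeft_eq]
    calc G t * 2 ^ 210 + y < G t * 2 ^ 210 + 2 ^ 210 := Nat.add_lt_add_left hy _
      _ = (G t + 1) * 2 ^ 210 := by ring
      _ ≤ 2 ^ 285 * 2 ^ 210 := Nat.mul_le_mul_right _ hG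
      _ = 2 ^ 495 := by rw [← pow_add]
  have hXR : ∀ k < Nn t, G t <<< 210 + ln t k < 2 ^ 495 := fun k hk => hXR' _ (hln k hk)
  have hSlt : G t <<< 210 + sa < 2 ^ 495 := hXR' sa hsalt
  have hSG : (G t <<< 210 + sa) >>> 210 = G t := by
    rw [Nat.shiftRight_eq_div_pow, Nat.shiftLeft_eq, Nat.mul_comm,
      Nat.mul_add_div (Nat.two_pow_pos 210), Nat.div_eq_of_lt hsalt, Nat.add_zero]
  have eS : Nat.add (G t <<< 210) sa = G t <<< 210 + sa := rfl
  rw [eS] at hXc hU hQc hS
  generalize hSdef : G t <<< 210 + sa = S at hSlt hSG hXc hU hQc hS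
  set D := fam 12 4 S with hDdef
  have hD : ∀ s ∈ D, Sub 12 4 s := fun s hs => sub_of_mem_fam (by norm_num) hs
  have hE : enc 12 4 D = S := enc_fam (by norm_num) (by rw [choose_12_4]; exact hSlt)
  have hfr : fam 12 4 (G t <<< 210) = top2 D := frm_eq hD (by rw [hE, hSG])
  have henc : enc 12 4 (top2 D) = G t <<< 210 := by rw [enc_top2, hE, hSG]
  generalize hX : G t <<< 210 = X at hX0 hXR hU hQc hS henc hfr
  have hSX : S >>> 210 <<< 210 = X := by rw [hSG, hX]
  have hkS : keyX S = keyX X := by rw [← hSX, keyX_top]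
  -- the words
  have hv9 : ∀ a ∈ v', a < 9 := by
    intro a ha
    rw [List.all_eq_true] at hv
    have h1 := hv a ha
    rw [Nat.blt_eq] at h1
    exact h1
  have hv11 : ∀ a ∈ 10 :: v', a < 11 := by
    intro a ha
    rcases List.mem_cons.1 ha with rfl | ha
    · norm_num
    · have := hv9 a ha
      omega
  have hfix' : ∀ b : Fin 13, 10 ≤ b.val → wp v' b = b := fun b hb =>
    wp_fix (n := 10) (fun a ha => by have := hv9 a ha; omega) hb
  have hτ : wp (10 :: v') = wp v' * Pool.Agent.Helper91.TY.swp 10 := rfl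
  have hs10 : Pool.Agent.Helper91.TY.swp 10 10 = 11 := by decide
  have hs11 : Pool.Agent.Helper91.TY.swp 10 11 = 10 := by decide
  have hs12 : Pool.Agent.Helper91.TY.swp 10 12 = 12 := by decide
  have hτ10 : wp (10 :: v') 10 = 11 := by
    rw [hτ, Equiv.Perm.mul_apply, hs10, hfix' 11 (by decide)]
  have hτ11 : wp (10 :: v') 11 = 10 := by
    rw [hτ, Equiv.Perm.mul_apply, hs11, hfix' 10 (by decide)]
  have hτ12 : wp (10 :: v') 12 = 12 := by
    rw [hτ, Equiv.Perm.mul_apply, hs12, hfix' 12 (by decide)]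
  set Q := runL 1 (10 :: v') S with hQ
  set D' := mapF (wp (10 :: v')) D with hD'
  have hQE : enc 12 4 D' = Q := by
    have h5 := runW_tab12 hv11 D
    rw [hE] at h5
    rw [hQ, runL_one hv11]
    exact h5.symm
  have hsub' : ∀ s ∈ D', Sub 12 4 s := sub_map hD hτ12
  have hl : link D 11 = fam 11 3 (cC ci) := link_of_code hD (by rw [hE]; exact hXc)
  have hl' : link D' 11 = fam 11 3 (cC di) := link_of_code hsub' (by rw [hQE]; exact hQc)
  refine ⟨⟨ci, hci, ?_⟩, ?_, ?_, ?_⟩
  · have h1 : (S >>> 210 <<< 210) >>> 330 = S >>> 330 := shr_shl S 120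
    rw [← hSX, h1]
    exact hXc
  · rw [hfr, link_top2 (Or.inr rfl), hl]
    exact card_fam_cC hci
  · have h1 : link D' 11 = mapF (wp (10 :: v')) (link D 10) := by
      conv_lhs => rw [← hτ10]
      exact link_mapF _ _ _
    rw [hfr, link_top2 (Or.inl rfl), ← card_mapF (wp (10 :: v')), ← h1, hl']
    exact card_fam_cC hdi
  · rw [hfr]
    intro ρ hρ hj
    obtain ⟨j, hj, hYj⟩ := hj
    have hYtop : enc 12 4 (mapF ρ (top2 D)) = enc 12 4 (mapF ρ D) >>> 210 <<< 210 := by
      rw [mapF_top2 hρ, enc_top2]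
    have hkY : keyX (enc 12 4 (mapF ρ (top2 D))) = keyX (enc 12 4 (mapF ρ D)) := by
      rw [hYtop, keyX_top]
    have hYj' : enc 12 4 (mapF ρ D) >>> 330 = cC j := by
      have h1 : (enc 12 4 (mapF ρ D) >>> 210 <<< 210) >>> 330 = enc 12 4 (mapF ρ D) >>> 330 :=
        shr_shl _ 120
      rw [← h1, ← hYtop]
      exact hYj
    have hsubY : ∀ s ∈ mapF ρ D, Sub 12 4 s := sub_map hD hρ.1
    have hlY : link (mapF ρ D) 11 = fam 11 3 (cC j) := link_of_code hsubY hYj'
    -- a common conclusion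
    have key : ∀ w Ps, (∀ a ∈ w, a < 11) → ρ = wp w →
        evt X S (Nn t) (ln t) w Ps (enc 12 4 (mapF ρ D)) = true →
        (enc 12 4 (mapF ρ (top2 D)) = X ∨
          LowLt (keyX X) (keyX (enc 12 4 (mapF ρ (top2 D))))) ∧
        (enc 12 4 (mapF ρ (top2 D)) = X → ∀ k < Nn t, ∃ k' < Nn t,
          enc 10 4 (mapF ρ (fam 10 4 (ln t k))) = ln t k') := by
      intro w Ps hw hρw he
      unfold evt at he
      by_cases hYX : Nat.shiftRight (enc 12 4 (mapF ρ D)) 210 = Nat.shiftRight S 210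
      · have e1 : Nat.beq (Nat.shiftRight (enc 12 4 (mapF ρ D)) 210) (Nat.shiftRight S 210) =
          true := by rw [Nat.beq_eq]; exact hYX
        rw [e1, cond_true] at he
        have hYX' : enc 12 4 (mapF ρ D) >>> 210 = S >>> 210 := hYX
        refine ⟨Or.inl (by rw [hYtop, hYX', hSX]), fun _ k hk => ?_⟩
        obtain ⟨k', hk', h2⟩ := clW_sound hw hXR Ps 0 he k (Nat.zero_le _) hk
        refine ⟨k', hk', ?_⟩
        rw [hρw]
        exact lanes_of_codes (hln k hk) (hln k' hk') hX0 (hXR k hk) hw (hρw ▸ hρ) h2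
      · have e1 : Nat.beq (Nat.shiftRight (enc 12 4 (mapF ρ D)) 210) (Nat.shiftRight S 210) =
          false := by
          rw [Bool.eq_false_iff, Ne, Nat.beq_eq]; exact hYX
        rw [e1, cond_false] at he
        refine ⟨Or.inr ?_, fun h => absurd ?_ hYX⟩
        · rw [hkY, ← hkS]
          exact lowC_sound he
        · have h1 : enc 12 4 (mapF ρ D) >>> 210 = (enc 12 4 (mapF ρ D) >>> 210 <<< 210) >>> 210 :=
            (shr_shl _ 0).symm
          show enc 12 4 (mapF ρ D) >>> 210 = S >>> 210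
          rw [h1, ← hYtop, h, ← hSX]
          exact shr_shl S 0
    rcases hρ.2 with ⟨h11, h10⟩ | ⟨h11, h10⟩
    · -- fixing
      have h1 : mapF ρ (fam 11 3 (cC ci)) = fam 11 3 (cC j) := by
        rw [← hl, ← hlY]
        conv_rhs => rw [← h11]
        exact (link_mapF _ _ _).symm
      obtain ⟨-, w, hw, hρw⟩ := iso_canon hci hj h10 h11 hρ.1 h1
      have hw11 : ∀ a ∈ w, a < 11 := fun a ha => by
        have := cS_lt ci hci w hw a ha
        omega
      rcases loopU_sound hU w hw with h2 | ⟨Ps, h2⟩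
      · subst h2
        have h3 : ρ = 1 := hρw
        subst h3
        rw [mapF_one]
        refine ⟨Or.inl henc, fun _ k hk => ⟨k, hk, ?_⟩⟩
        rw [mapF_one, enc_fam (by norm_num) (by rw [choose_10_4]; exact hln k hk)]
      · have h3 : runL 1 w S = enc 12 4 (mapF ρ D) := by
          have h5 := runW_tab12 hw11 D
          rw [hE, ← hρw] at h5
          rw [runL_one hw11]
          exact h5
        rw [h3] at h2
        exact key w Ps hw11 hρw h2
    · -- exchanging
      obtain ⟨ρ', hρ'⟩ : ∃ ρ', ρ' = ρ * (wp (10 :: v'))⁻¹ := ⟨_, rfl⟩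
      have hρτ : ρ = ρ' * wp (10 :: v') := by rw [hρ', inv_mul_cancel_right]
      have hinv : ∀ a b : Fin 13, wp (10 :: v') a = b → (wp (10 :: v'))⁻¹ b = a := by
        intro a b hab
        rw [← hab]
        exact (wp (10 :: v')).symm_apply_apply a
      have k10 : ρ' 10 = 10 := by
        rw [hρ', Equiv.Perm.mul_apply, hinv 11 10 hτ11, h11]
      have k11 : ρ' 11 = 11 := by
        rw [hρ', Equiv.Perm.mul_apply, hinv 10 11 hτ10, h10]
      have k12 : ρ' 12 = 12 := by
        rw [hρ', Equiv.Perm.mul_apply, hinv 12 12 hτ12, hρ.1]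
      have hmap : mapF ρ D = mapF ρ' D' := by
        rw [hρτ, mapF_mul]
      have h1 : mapF ρ' (fam 11 3 (cC di)) = fam 11 3 (cC j) := by
        rw [← hl', ← hlY, hmap]
        conv_rhs => rw [← k11]
        exact (link_mapF _ _ _).symm
      obtain ⟨-, w, hw, hρw⟩ := iso_canon hdi hj k10 k11 k12 h1
      have hw11 : ∀ a ∈ w, a < 11 := fun a ha => by
        have := cS_lt di hdi w hw a ha
        omega
      obtain ⟨Ps, h2⟩ := loopS_sound hS w hw
      have hvw : ρ = wp ((10 :: v') ++ w) := by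
        rw [wp_append, ← hρw, hρτ]
      refine key _ Ps (fun a ha => ?_) hvw ?_
      · rcases List.mem_append.1 ha with ha | ha
        · exact hv11 a ha
        · exact hw11 a ha
      · have h3 : runL 1 w Q = enc 12 4 (mapF ρ D) := by
          have h5 := runW_tab12 hw11 D'
          rw [hQE, ← hρw, ← hmap] at h5
          rw [runL_one hw11]
          exact h5
        rw [h3] at h2
        exact h2

/-- the keys increase -/
def KeyInc (NT : ℕ) (G : ℕ → ℕ) : Prop :=
  ∀ t, t + 1 < NT → LowLt (keyX (G t <<< 210)) (keyX (G (t + 1) <<< 210))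

theorem key_lt {NT : ℕ} {G : ℕ → ℕ} (h : KeyInc NT G) : ∀ t', t' < NT → ∀ t < t',
    LowLt (keyX (G t <<< 210)) (keyX (G t' <<< 210)) := by
  intro t'
  induction t' with
  | zero => intro _ t ht; omega
  | succ t' ih =>
    intro ht' t ht
    by_cases h1 : t = t'
    · rw [h1]
      exact h t' ht'
    · exact (ih (by omega) t (by omega)).trans (h t' ht')

theorem key_inj {NT : ℕ} {G : ℕ → ℕ} (h : KeyInc NT G) {t t' : ℕ} (ht : t < NT) (ht' : t' < NT)
    (he : keyX (G t <<< 210) = keyX (G t' <<< 210)) : t = t' := by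
  rcases Nat.lt_trichotomy t t' with h1 | h1 | h1
  · have h5 := key_lt h t' ht' t h1
    rw [he] at h5
    exact h5.irrefl.elim
  · exact h1
  · have h5 := key_lt h t ht t' h1
    rw [he] at h5
    exact h5.irrefl.elim

/-- **the isomorphisms of the types from the checks** -/
theorem gIsoOK_of_checks {NT : ℕ} {G Nn : ℕ → ℕ} {ln : ℕ → ℕ → ℕ} (hG : ∀ t < NT, G t < 2 ^ 285)
    (hK : KeyInc NT G) (h : ∀ t < NT, IsoAt (G t <<< 210) (Nn t) (ln t)) :
    GIsoOK NT G (fun t => {R | ∃ k < Nn t, R = ln t k}) := by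
  have hXlt : ∀ t < NT, G t <<< 210 < 2 ^ 495 := by
    intro t ht
    rw [Nat.shiftLeft_eq]
    calc G t * 2 ^ 210 < 2 ^ 285 * 2 ^ 210 :=
          Nat.mul_lt_mul_of_pos_right (hG t ht) (Nat.two_pow_pos _)
      _ = 2 ^ 495 := by rw [← pow_add]
  have henc : ∀ t < NT, enc 12 4 (frm (G t)) = G t <<< 210 := by
    intro t ht
    have h0 := hXlt t ht
    unfold frm
    generalize G t <<< 210 = N at h0
    exact enc_fam (by norm_num) (by rw [choose_12_4]; exact h0)
  intro t ht t' ht' ρ hρ hm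
  have h1 := (h t ht).img ρ hρ (by
    obtain ⟨j, hj, h2⟩ := (h t' ht').can
    refine ⟨j, hj, ?_⟩
    rw [← h2, ← henc t' ht', ← hm]
    rfl)
  have hm' : mapF ρ.symm (frm (G t')) = frm (G t) := by
    rw [← hm, mapF_symm_mapF]
  have h2 := (h t' ht').img ρ.symm (fix2_symm hρ) (by
    obtain ⟨j, hj, h2⟩ := (h t ht).can
    refine ⟨j, hj, ?_⟩
    rw [← h2, ← henc t ht, ← hm']
    rfl)
  have e1 : enc 12 4 (mapF ρ (fam 12 4 (G t <<< 210))) = G t' <<< 210 := by
    have h3 : mapF ρ (fam 12 4 (G t <<< 210)) = frm (G t') := hm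
    rw [h3, henc t' ht']
  have e2 : enc 12 4 (mapF ρ.symm (fam 12 4 (G t' <<< 210))) = G t <<< 210 := by
    have h3 : mapF ρ.symm (fam 12 4 (G t' <<< 210)) = frm (G t) := hm'
    rw [h3, henc t ht]
  rw [e1] at h1
  rw [e2] at h2
  have hXX : G t <<< 210 = G t' <<< 210 := by
    rcases h1.1 with h3 | h3
    · exact h3.symm
    · rcases h2.1 with h4 | h4
      · exact h4
      · exact (h3.asymm h4).elim
  have htt : t = t' := key_inj hK ht ht' (by rw [hXX])
  subst htt
  refine ⟨rfl, ?_⟩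
  rintro R ⟨k, hk, rfl⟩
  obtain ⟨k', hk', h3⟩ := h2.2 rfl k hk
  exact ⟨k', hk', h3⟩

theorem gCardOK_of_checks {NT : ℕ} {G Nn : ℕ → ℕ} {ln : ℕ → ℕ → ℕ}
    (h : ∀ t < NT, IsoAt (G t <<< 210) (Nn t) (ln t)) : GCardOK NT G :=
  fun t ht => ⟨(h t ht).card11, (h t ht).card10⟩

end Pool.Agent.Helper67.TY
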