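import Pool.Agent.Helper67.TY.GFlag
import Pool.Agent.Helper67.TY.GIso
import Pool.Agent.Helper67.GT.Rows
import Pool.Agent.Helper16.TY.Tab.All

/-!
MP_8ee768_co, project TH-Y': the kernel checks of the glued types, in the form of the generated
modules.
-/

set_option autoImplicit false
set_option maxRecDepth 100000

namespace Pool.Agent.Helper67.TY

open Finset
open Pool.Agent.Helper89.CV (OddCover ofMask)
open Pool.Agent.Helper97.CV
open Pool.Agent.Helper79.CV
open Pool.Agent.Helper82.TY (below pop)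
open Pool.Agent.Helper16.TY (packL)
open Pool.Agent.Helper67.GT (NT gG gN lane gInfo gPiece)

theorem gG_lt (t : ℕ) : gG t < 2 ^ 285 := Nat.mod_lt _ (Nat.two_pow_pos _)

theorem lane_lt (t k : ℕ) : lane t k < 2 ^ 210 := Nat.mod_lt _ (Nat.two_pow_pos _)

/-- the `n` fields with 96 bits of a number, highest first -/
def cert (n : ℕ) (l : List ℕ) : List ℕ :=
  Nat.rec (motive := fun _ => List ℕ) []
    (fun i ih => Nat.land (Nat.shiftRight (packL 15936 l) (Nat.mul 96 i))
      0xffffffffffffffffffffffff :: ih) n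

/-- 60 blocks -/
def p60 (n : ℕ) : Bool := Nat.beq n 60

/-- the end lane of a certificate `v = word + 2 ^ 66 * (k + 2 ^ 13 * t)`; everything is evaluated
once, the piece and the information on the type by one access each -/
noncomputable def endq (v : ℕ) : ℕ :=
  forceN (Nat.shiftRight v 79) fun t => forceN (gInfo t) fun I =>
  forceN (Nat.mod (Nat.shiftRight v 66) 8192) fun k =>
    Bool.rec 0 (Nat.add (Nat.shiftLeft 3072 495) (Nat.add (Nat.shiftLeft (Nat.mod I (2 ^ 285)) 210)
      (forceN (Nat.add (Nat.shiftRight I 301) (Nat.div k 64)) fun i =>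
        Nat.mod (Nat.shiftRight (gPiece i) (Nat.mul 210 (Nat.mod k 64))) (2 ^ 210))))
      (and (Nat.blt t NT) (Nat.blt k (Nat.mod (Nat.shiftRight I 285) (2 ^ 16))))

theorem endOK : EndOK NT gG gN lane endq := by
  intro v hv
  unfold endq at hv ⊢
  simp only [forceN_eq] at hv ⊢
  cases h : (and (Nat.blt (Nat.shiftRight v 79) NT) (Nat.blt (Nat.mod (Nat.shiftRight v 66) 8192)
    (Nat.mod (Nat.shiftRight (gInfo (Nat.shiftRight v 79)) 285) (2 ^ 16))))
  · rw [h] at hv
    exact absurd rfl hv
  · rw [Bool.and_eq_true, Nat.blt_eq, Nat.blt_eq] at h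
    exact ⟨Nat.shiftRight v 79, h.1, Nat.mod (Nat.shiftRight v 66) 8192, h.2, rfl⟩

/-- the flags of the classes `lo, .., hi - 1` -/
def FlagSeg (lo hi : ℕ) : Prop :=
  ∀ j, lo ≤ j → j < hi → FlagAt p60 NT gG gN lane (Pool.Agent.Helper16.TY.Tab.tv j)

theorem FlagSeg.app {a b c : ℕ} (h : FlagSeg a b) (h' : FlagSeg b c) : FlagSeg a c := by
  intro j h1 h2
  by_cases h3 : j < b
  · exact h j h1 h3
  · exact h' j (by omega) h2

/-- the check of the flags of the classes `lo, .., lo + n - 1` (`N` pairs) -/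
noncomputable def fchk (lo n N : ℕ) (l : List ℕ) : Bool :=
  flagsChk p60 Pool.Agent.Helper16.TY.Tab.tv endq lo n N (cert N l)

theorem flagSeg {lo n N : ℕ} {l : List ℕ} (h : fchk lo n N l = true) : FlagSeg lo (lo + n) :=
  fun j h1 h2 => flagsChk_sound (fun t _ => gG_lt t) (fun t _ k _ => lane_lt t k) endOK h j h1 h2

end Pool.Agent.Helper67.TY
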