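import Pool.Agent.Helper67.TY.GRun

/-!
MP_8ee768_co, project TH-Y': the flags with short literals.
-/

set_option autoImplicit false
set_option maxRecDepth 100000

namespace Pool.Agent.Helper67.TY

open Pool.Agent.Helper16.TY (packL)
open Pool.Agent.Helper67.GT (NT gG gN lane)

/-- the `n` fields with 96 bits of a number given by literals with 41 fields, highest first -/
def cert2 (n : ℕ) (l : List ℕ) : List ℕ :=
  Nat.rec (motive := fun _ => List ℕ) []
    (fun i ih => Nat.land (Nat.shiftRight (packL 3936 l) (Nat.mul 96 i))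
      0xffffffffffffffffffffffff :: ih) n

/-- the check of the flags of the classes `lo, .., lo + n - 1` (`N` pairs) -/
noncomputable def fchk2 (lo n N : ℕ) (l : List ℕ) : Bool :=
  flagsChk p60 Pool.Agent.Helper16.TY.Tab.tv endq lo n N (cert2 N l)

theorem flagSeg2 {lo n N : ℕ} {l : List ℕ} (h : fchk2 lo n N l = true) : FlagSeg lo (lo + n) :=
  fun j h1 h2 => flagsChk_sound (fun t _ => gG_lt t) (fun t _ k _ => lane_lt t k) endOK h j h1 h2

end Pool.Agent.Helper67.TY
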