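import Pool.Agent.Helper67.TY.Tab12
import Pool.Agent.Helper16.TY.Rows

/-!
MP_8ee768_co, project TH-Y': all isomorphisms between two triple systems on `{0, .., 10}` fixing
the point `10`, by a search which places the points `0, .., 9` one after the other.
-/

set_option autoImplicit false

namespace Pool.Agent.Helper67.TY

open Finset
open Pool.Agent.Helper89.CV (OddCover ofMask)
open Pool.Agent.Helper97.CV
open Pool.Agent.Helper79.CV
open Pool.Agent.Helper16.TY (ofMask_two_pow)
open Pool.Agent.Helper91.TY (wp)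

/-- bit `l[i]` is set iff bit `i` of `T` is set -/
def expand : List ℕ → ℕ → ℕ
  | [], _ => 0
  | m :: l, T => Nat.lor (bif Nat.beq (Nat.mod T 2) 1 then Nat.pow 2 m else 0) (expand l (Nat.div T 2))

theorem testBit_expand {l : List ℕ} {T j : ℕ} :
    (expand l T).testBit j = true ↔ ∃ i, ∃ h : i < l.length, l[i] = j ∧ T.testBit i = true := by
  induction l generalizing T with
  | nil => simp [expand]
  | cons m l ih =>
    have e : expand (m :: l) T =
      (bif Nat.beq (Nat.mod T 2) 1 then Nat.pow 2 m else 0) ||| expand l (T / 2) := rfl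
    rw [e, Nat.testBit_or, Bool.or_eq_true, ih]
    have h0 : (bif Nat.beq (Nat.mod T 2) 1 then Nat.pow 2 m else 0).testBit j = true ↔
        m = j ∧ T.testBit 0 = true := by
      rw [Nat.testBit_zero, decide_eq_true_eq]
      by_cases h : T % 2 = 1
      · have e1 : Nat.beq (Nat.mod T 2) 1 = true := by rw [Nat.beq_eq]; exact h
        rw [e1, cond_true]
        show (2 ^ m).testBit j = true ↔ _
        rw [Nat.testBit_two_pow, decide_eq_true_eq]
        exact ⟨fun h1 => ⟨h1, h⟩, fun h1 => h1.1⟩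
      · have e1 : Nat.beq (Nat.mod T 2) 1 = false := by
          rw [Bool.eq_false_iff, Ne, Nat.beq_eq]; exact h
        rw [e1, cond_false, Nat.zero_testBit]
        exact ⟨fun h1 => absurd h1 Bool.false_ne_true, fun h1 => absurd h1.2 h⟩
    rw [h0]
    constructor
    · rintro (⟨h1, h2⟩ | ⟨i, hi, h1, h2⟩)
      · exact ⟨0, Nat.succ_pos _, h1, h2⟩
      · refine ⟨i + 1, Nat.succ_lt_succ hi, h1, ?_⟩
        rw [Nat.testBit_succ]
        exact h2
    · rintro ⟨i, hi, h1, h2⟩
      cases i with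
      | zero => exact Or.inl ⟨h1, h2⟩
      | succ i =>
        refine Or.inr ⟨i, Nat.lt_of_succ_lt_succ hi, h1, ?_⟩
        rw [Nat.testBit_succ] at h2
        exact h2

/-- the cube code of a triple system -/
def cube3 (T : ℕ) : ℕ := expand (L 11 3) T

theorem testBit_cube3 {T : ℕ} (s : Finset (Fin 13)) :
    (cube3 T).testBit (mk s) = true ↔ s ∈ fam 11 3 T := by
  unfold cube3
  rw [testBit_expand, mem_fam]
  constructor
  · rintro ⟨i, h, h1, h2⟩
    exact ⟨i, h, h2, by rw [h1, ofMask_mk]⟩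
  · rintro ⟨i, h, h1, h2⟩
    refine ⟨i, h, ?_, h1⟩
    rw [← h2, mk_ofMask_getElem (by norm_num) h]

/-- bit of a cube code -/
def bitAt (c m : ℕ) : ℕ := Nat.land (Nat.shiftRight c m) 1

theorem bitAt_eq (c m : ℕ) : bitAt c m = (c.testBit m).toNat := by
  unfold bitAt
  have e : Nat.land (Nat.shiftRight c m) 1 = (c >>> m) &&& 1 := rfl
  rw [e, Nat.and_one_is_mod, Nat.testBit_eq_decide_div_mod_eq, Nat.shiftRight_eq_div_pow]
  rcases Nat.mod_two_eq_zero_or_one (c / 2 ^ m) with h | h
  · rw [h]; rfl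
  · rw [h]; rfl

/-- the mask of three points -/
theorem mask3 (x y z : Fin 13) : ofMask (Nat.lor (Nat.lor (2 ^ x.val) (2 ^ y.val)) (2 ^ z.val)) =
    {x, y, z} := by
  have e : Nat.lor (Nat.lor (2 ^ x.val) (2 ^ y.val)) (2 ^ z.val) =
    2 ^ x.val ||| 2 ^ y.val ||| 2 ^ z.val := rfl
  rw [e, ofMask_lor, ofMask_lor, ofMask_two_pow x.isLt, ofMask_two_pow y.isLt,
    ofMask_two_pow z.isLt]
  ext a
  simp only [mem_union, mem_singleton, mem_insert, Fin.eta, or_assoc]

theorem mask3_lt (x y z : Fin 13) :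
    Nat.lor (Nat.lor (2 ^ x.val) (2 ^ y.val)) (2 ^ z.val) < 2 ^ 13 := by
  have h : ∀ a : Fin 13, 2 ^ a.val < 2 ^ 13 := fun a => Nat.pow_lt_pow_right (by norm_num) a.isLt
  exact Nat.or_lt_two_pow (Nat.or_lt_two_pow (h x) (h y)) (h z)

/-- an isomorphism preserves the bits -/
theorem bit_iso {T T' : ℕ} {ρ : Equiv.Perm (Fin 13)} (h : mapF ρ (fam 11 3 T) = fam 11 3 T')
    (x y z : Fin 13) :
    bitAt (cube3 T) (Nat.lor (Nat.lor (2 ^ x.val) (2 ^ y.val)) (2 ^ z.val)) =
      bitAt (cube3 T') (Nat.lor (Nat.lor (2 ^ (ρ x).val) (2 ^ (ρ y).val)) (2 ^ (ρ z).val)) := by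
  rw [bitAt_eq, bitAt_eq]
  congr 1
  have h1 := mk_ofMask (mask3_lt x y z)
  have h2 := mk_ofMask (mask3_lt (ρ x) (ρ y) (ρ z))
  rw [← h1, ← h2, mask3, mask3, Bool.eq_iff_iff, testBit_cube3, testBit_cube3, ← h]
  have h3 : ({ρ x, ρ y, ρ z} : Finset (Fin 13)) = mapS ρ {x, y, z} := by
    rw [mapS_insert, mapS_insert, mapS_singleton]
  rw [h3, mem_mapF]

/-! ## the search -/

/-- one new entry and one old entry against the others -/
def tst2 (c c' K A : ℕ) (p : ℕ × ℕ) (l : List (ℕ × ℕ)) : Bool :=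
  l.all fun q => Nat.beq (bitAt c (Nat.lor (Nat.lor q.1 p.1) K))
    (bitAt c' (Nat.lor (Nat.lor q.2 p.2) A))

/-- the new entry is consistent -/
def tst (c c' K A : ℕ) : List (ℕ × ℕ) → Bool
  | [] => true
  | p :: l => tst2 c c' K A p l && tst c c' K A l

/-- the value is new -/
def freeA (A : ℕ) (l : List (ℕ × ℕ)) : Bool := l.all fun q => !Nat.beq q.2 A

/-- all consistent extensions by `n` points -/
def srch (c c' : ℕ) : ℕ → ℕ → List (ℕ × ℕ) → List (List (ℕ × ℕ))
  | 0, _, st => [st]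
  | n + 1, K, st => ([1, 2, 4, 8, 16, 32, 64, 128, 256, 512].filter fun A =>
      freeA A st && tst c c' K A st).flatMap fun A => srch c c' n (Nat.mul 2 K) ((K, A) :: st)

/-- the states of a map -/
def stF (f : ℕ → ℕ) : ℕ → List (ℕ × ℕ)
  | 0 => [(1024, 1024)]
  | k + 1 => (2 ^ k, f k) :: stF f k

/-- the values of a permutation as powers of two -/
def fP (ρ : Equiv.Perm (Fin 13)) (i : ℕ) : ℕ := 2 ^ (if h : i < 13 then (ρ ⟨i, h⟩).val else 0)

theorem mem_stF {ρ : Equiv.Perm (Fin 13)} (h10 : ρ 10 = 10) {k : ℕ} (hk : k ≤ 10) :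
    ∀ q ∈ stF (fP ρ) k, ∃ x : Fin 13, (x.val < k ∨ x = 10) ∧ q = (2 ^ x.val, 2 ^ (ρ x).val) := by
  induction k with
  | zero =>
    intro q hq
    have hq' : q ∈ [((1024 : ℕ), (1024 : ℕ))] := hq
    rw [List.mem_singleton] at hq'
    exact ⟨10, Or.inr rfl, by rw [hq', h10]; rfl⟩
  | succ k ih =>
    intro q hq
    have hq' : q ∈ (2 ^ k, fP ρ k) :: stF (fP ρ) k := hq
    rw [List.mem_cons] at hq'
    rcases hq' with hq' | hq'
    · refine ⟨⟨k, by omega⟩, Or.inl (by show k < k + 1; omega), ?_⟩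
      rw [hq']
      unfold fP
      rw [dif_pos (by omega : k < 13)]
    · obtain ⟨x, h1, h2⟩ := ih (by omega) q hq'
      exact ⟨x, h1.imp (fun h => by omega) id, h2⟩

theorem tst_of {T T' : ℕ} {ρ : Equiv.Perm (Fin 13)} (h : mapF ρ (fam 11 3 T) = fam 11 3 T')
    (z : Fin 13) {l : List (ℕ × ℕ)} (hl : ∀ q ∈ l, ∃ x : Fin 13, q = (2 ^ x.val, 2 ^ (ρ x).val)) :
    tst (cube3 T) (cube3 T') (2 ^ z.val) (2 ^ (ρ z).val) l = true := by
  induction l with
  | nil => rfl
  | cons p l ih =>
    show (tst2 _ _ _ _ p l && tst _ _ _ _ l) = true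
    rw [Bool.and_eq_true]
    refine ⟨?_, ih fun q hq => hl q (List.mem_cons_of_mem _ hq)⟩
    unfold tst2
    rw [List.all_eq_true]
    intro q hq
    obtain ⟨x, hx⟩ := hl q (List.mem_cons_of_mem _ hq)
    obtain ⟨y, hy⟩ := hl p List.mem_cons_self
    rw [hx, hy, Nat.beq_eq]
    exact bit_iso h x y z

theorem srch_complete {T T' : ℕ} {ρ : Equiv.Perm (Fin 13)}
    (h : mapF ρ (fam 11 3 T) = fam 11 3 T') (h10 : ρ 10 = 10) (h11 : ρ 11 = 11)
    (h12 : ρ 12 = 12) : ∀ n k, k + n = 10 →
    stF (fP ρ) 10 ∈ srch (cube3 T) (cube3 T') n (2 ^ k) (stF (fP ρ) k) := by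
  intro n
  induction n with
  | zero =>
    intro k hk
    have : k = 10 := by omega
    subst this
    exact List.mem_singleton.2 rfl
  | succ n ih =>
    intro k hk
    have hk13 : k < 13 := by omega
    have hfk : fP ρ k = 2 ^ (ρ ⟨k, hk13⟩).val := by
      unfold fP
      rw [dif_pos hk13]
    have hlt : (ρ ⟨k, hk13⟩).val < 10 := by
      have h1 := (ρ ⟨k, hk13⟩).isLt
      have hne : ∀ a : Fin 13, ρ a = a → a.val ≠ k → (ρ ⟨k, hk13⟩).val ≠ a.val := by
        intro a ha hak h2
        have h3 : ρ ⟨k, hk13⟩ = ρ a := by rw [ha]; exact Fin.ext h2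
        have h4 := ρ.injective h3
        exact hak (by rw [← h4])
      have e10 : (10 : Fin 13).val = 10 := rfl
      have e11 : (11 : Fin 13).val = 11 := rfl
      have e12 : (12 : Fin 13).val = 12 := rfl
      have h2 := hne 10 h10 (by omega)
      have h3 := hne 11 h11 (by omega)
      have h4 := hne 12 h12 (by omega)
      omega
    show _ ∈ ([1, 2, 4, 8, 16, 32, 64, 128, 256, 512].filter fun A => _).flatMap _
    rw [List.mem_flatMap]
    refine ⟨fP ρ k, ?_, ?_⟩
    · rw [List.mem_filter]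
      constructor
      · rw [hfk]
        have : ∀ a < 10, 2 ^ a ∈ [1, 2, 4, 8, 16, 32, 64, 128, 256, 512] := by decide
        exact this _ hlt
      · rw [Bool.and_eq_true]
        constructor
        · unfold freeA
          rw [List.all_eq_true]
          intro q hq
          obtain ⟨x, hx, rfl⟩ := mem_stF h10 (by omega : k ≤ 10) q hq
          rw [Bool.not_eq_true', Bool.eq_false_iff, Ne, Nat.beq_eq, hfk]
          intro h1
          have h2 := Nat.pow_right_injective (le_refl 2) h1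
          have h3 := ρ.injective (Fin.ext h2)
          rcases hx with hx | hx
          · rw [h3] at hx
            exact absurd hx (lt_irrefl _)
          · rw [h3] at hx
            have := congrArg Fin.val hx
            have e10 : (10 : Fin 13).val = 10 := rfl
            simp only at this
            omega
        · rw [hfk]
          exact tst_of h ⟨k, hk13⟩ fun q hq => by
            obtain ⟨x, -, hx⟩ := mem_stF h10 (by omega : k ≤ 10) q hq
            exact ⟨x, hx⟩
    · have e : Nat.mul 2 (2 ^ k) = 2 ^ (k + 1) := by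
        rw [pow_succ, Nat.mul_comm]
        rfl
      rw [e]
      exact ih (k + 1) (by omega)

/-- equality of permutations from the states -/
theorem eq_of_stF {ρ τ : Equiv.Perm (Fin 13)} (h : stF (fP ρ) 10 = stF (fP τ) 10)
    (h10 : ρ 10 = 10) (h11 : ρ 11 = 11) (h12 : ρ 12 = 12) (k10 : τ 10 = 10) (k11 : τ 11 = 11)
    (k12 : τ 12 = 12) : ρ = τ := by
  have key : ∀ n, stF (fP ρ) n = stF (fP τ) n → ∀ i < n, fP ρ i = fP τ i := by
    intro n
    induction n with
    | zero => intro _ i hi; omega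
    | succ n ih =>
      intro h1 i hi
      have h2 : (2 ^ n, fP ρ n) :: stF (fP ρ) n = (2 ^ n, fP τ n) :: stF (fP τ) n := h1
      rw [List.cons.injEq, Prod.mk.injEq] at h2
      by_cases h3 : i = n
      · rw [h3]; exact h2.1.2
      · exact ih h2.2 i (by omega)
  refine Equiv.ext fun a => ?_
  by_cases ha : a.val < 10
  · have h1 := key 10 h a.val ha
    unfold fP at h1
    rw [dif_pos a.isLt, dif_pos a.isLt] at h1
    exact Fin.ext (Nat.pow_right_injective (le_refl 2) h1)
  · have h1 := a.isLt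
    have h2 : a = 10 ∨ a = 11 ∨ a = 12 := by
      rcases (by omega : a.val = 10 ∨ a.val = 11 ∨ a.val = 12) with h2 | h2 | h2
      · exact Or.inl (Fin.ext h2)
      · exact Or.inr (Or.inl (Fin.ext h2))
      · exact Or.inr (Or.inr (Fin.ext h2))
    rcases h2 with rfl | rfl | rfl
    · rw [h10, k10]
    · rw [h11, k11]
    · rw [h12, k12]

end Pool.Agent.Helper67.TY
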