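import Pool.Agent.Helper67.TY.Zero
import Pool.Agent.Helper33.CV.Perm

/-!
MP_8ee768_co, project TH-Y': normal form modulo the automorphisms of a pair link (zero-pair runs).

A light vertex `12` whose link at `11` is a fixed near-STS `T` has many zero points. Given a list
of automorphisms of `T` and an ordered list of orbits of pairs whose union meets every large set
of points, some automorphism brings a zero pair to the representative of the first orbit which
contains a zero pair.
-/

set_option autoImplicit false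

namespace Pool.Agent.Helper67.TY

open Finset
open Pool.Agent.Helper89.CV (OddCover ofMask)
open Pool.Agent.Helper97.CV
open Pool.Agent.Helper79.CV
open Pool.Agent.Helper33.CV (pmM valL relab okPerm permOf valL_permOf permOf_apply keeps_permOf Keeps
  ofMask_pmM relab_eq enc_mapF_relab)

/-- all points of the mask are zero points of `12` -/
def ZM (B : Finset (Finset (Fin 13))) (m : ℕ) : Prop := ∀ a ∈ ofMask m, mm B 12 a = 0

/-- number of points of a mask -/
def cardM (m : ℕ) : ℕ := ((List.range 13).filter fun i => m.testBit i).length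

theorem card_ofMask (m : ℕ) : (ofMask m).card = cardM m := by
  unfold cardM
  have h1 : ofMask m = ((List.finRange 13).filter fun i => m.testBit i.val).toFinset := by
    ext i
    rw [mem_ofMask, List.mem_toFinset, List.mem_filter]
    exact ⟨fun h => ⟨List.mem_finRange i, h⟩, fun h => h.2⟩
  rw [h1, List.toFinset_card_of_nodup ((List.nodup_finRange 13).filter _)]
  have h2 : List.range 13 = (List.finRange 13).map Fin.val := by decide
  rw [h2, List.filter_map, List.length_map]
  rfl

/-- the automorphism test -/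
def gOK (T : ℕ) (g : List ℕ) : Bool :=
  okPerm g && (g.take 11).all (fun a => Nat.blt a 11) && Nat.beq (g.getD 11 0) 11 &&
    Nat.beq (g.getD 12 0) 12 && Nat.beq (relab 11 3 g T) T

/-- the orbit test -/
def runOK (G : List (List ℕ)) (r : ℕ × List (ℕ × ℕ)) : Bool :=
  r.2.all (fun p => Nat.blt p.1 2048 && Nat.beq (pmM (G.getD p.2 []) p.1) r.1 &&
    Nat.blt p.2 G.length) &&
    G.all (fun g => r.2.all fun p => r.2.any fun q => Nat.beq (pmM g p.1) q.1)

/-- every set with at least `c` points contains a pair of some orbit -/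
def coverOK (runs : List (ℕ × List (ℕ × ℕ))) (c : ℕ) : Bool :=
  (List.range 2048).all fun m => Nat.blt (cardM m) c ||
    runs.any fun r => r.2.any fun p => Nat.beq (Nat.land p.1 m) p.1

theorem blt_true {a b : ℕ} (h : Nat.blt a b = true) : a < b := by
  rw [Nat.blt_eq] at h
  exact h

theorem beq_true {a b : ℕ} (h : Nat.beq a b = true) : a = b := Nat.eq_of_beq_eq_true h

theorem notMem_of_lt {m : ℕ} (hm : m < 2048) {a : Fin 13} (ha : a ∈ ofMask m) : a.val < 11 := by
  rw [mem_ofMask] at ha
  by_contra h
  rw [Nat.testBit_eq_false_of_lt] at ha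
  · exact Bool.false_ne_true ha
  · exact lt_of_lt_of_le hm (Nat.pow_le_pow_right (n := 2) (i := 11) (by norm_num) (by omega))

/-- transport of zero masks by a permutation fixing `12` -/
theorem ZM_mapF {B : Finset (Finset (Fin 13))} (hB : OddCover B) {σ : Equiv.Perm (Fin 13)}
    (h12 : σ 12 = 12) {m : ℕ} (hm : m < 2048) :
    ZM (mapF σ B) (pmM (valL σ) m) ↔ ZM B m := by
  unfold ZM
  rw [ofMask_pmM]
  constructor
  · intro h a ha
    have h1 := h (σ a) (mem_mapS.2 ha)
    have h2 : (12 : Fin 13) ≠ a := by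
      rintro rfl
      exact absurd (notMem_of_lt hm ha) (by decide)
    rw [← h12, mm_mapF hB σ h2] at h1
    exact h1
  · intro h a ha
    rw [mem_mapS'] at ha
    have h1 := h _ ha
    have h2 : (12 : Fin 13) ≠ σ.symm a := by
      intro h3
      rw [← h3] at ha
      exact absurd (notMem_of_lt hm ha) (by decide)
    have h3 := mm_mapF hB σ h2
    rw [h12, Equiv.apply_symm_apply] at h3
    rw [h3]
    exact h1

/-- **normal form**: some permutation fixing `12`, `11` and the pair link `T` brings a zero pair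
to the representative of the first run which contains one (with the list of the permutation) -/
theorem exists_run' {T : ℕ} {G : List (List ℕ)} {runs : List (ℕ × List (ℕ × ℕ))} {k : ℕ}
    (hG : G.all (gOK T) = true) (hR : runs.all (runOK G) = true)
    (hC : coverOK runs (11 - k) = true)
    {B : Finset (Finset (Fin 13))} (hB : OddCover B) (hk : MM B 12 ≤ k)
    (hT : enc 11 3 (link (link B 12) 11) = T) :
    ∃ σ : Equiv.Perm (Fin 13), valL σ ∈ G ∧ σ 12 = 12 ∧ σ 11 = 11 ∧
      enc 11 3 (link (link (mapF σ B) 12) 11) = T ∧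
      ∃ r, ∃ h : r < runs.length, ZM (mapF σ B) (runs[r]).1 ∧
        ∀ s, ∀ hs : s < r, ∀ p ∈ (runs[s]'(hs.trans h)).2, ¬ ZM (mapF σ B) p.1 := by
  classical
  rw [List.all_eq_true] at hG hR
  -- the zero mask
  have hz := zeros_card B 12
  have hzm : ∃ m, m < 2048 ∧ 11 - k ≤ cardM m ∧ ZM B m := by
    refine ⟨mk ((zeros B 12).erase 11), ?_, ?_, ?_⟩
    · refine lt_of_lt_of_eq ((mk_lt_iff (n := 11)).2 fun a ha => ?_) (by norm_num)
      rw [mem_erase, mem_zeros] at ha
      have h1 : a ≠ 12 := fun h => ha.2.1 h.symm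
      have h2 : a.val ≠ 11 := fun h => ha.1 (Fin.ext h)
      have h3 : a.val ≠ 12 := fun h => h1 (Fin.ext h)
      omega
    · rw [← card_ofMask, ofMask_mk]
      have h1 := pred_card_le_card_erase (s := zeros B 12) (a := (11 : Fin 13))
      omega
    · intro a ha
      rw [ofMask_mk, mem_erase, mem_zeros] at ha
      exact ha.2.2
  obtain ⟨m, hm, hmc, hmz⟩ := hzm
  -- some run has a zero pair
  have hex : ∃ r, ∃ h : r < runs.length, ∃ p ∈ (runs[r]).2, ZM B p.1 := by
    unfold coverOK at hC
    rw [List.all_eq_true] at hC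
    have h1 := hC m (List.mem_range.2 hm)
    rw [Bool.or_eq_true] at h1
    rcases h1 with h1 | h1
    · have := blt_true h1
      omega
    · rw [List.any_eq_true] at h1
      obtain ⟨r, hr, h2⟩ := h1
      rw [List.any_eq_true] at h2
      obtain ⟨p, hp, h3⟩ := h2
      obtain ⟨i, hi, rfl⟩ := List.getElem_of_mem hr
      refine ⟨i, hi, p, hp, ?_⟩
      intro a ha
      refine hmz a ?_
      have h4 : ofMask p.1 ∩ ofMask m = ofMask p.1 := by
        rw [← ofMask_land]
        exact congrArg ofMask (beq_true h3)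
      rw [← h4, mem_inter] at ha
      exact ha.2
  -- the first such run
  obtain ⟨r, ⟨hr, p, hp, hpz⟩, hmin⟩ :
      ∃ r, (∃ h : r < runs.length, ∃ p ∈ (runs[r]).2, ZM B p.1) ∧
        ∀ s < r, ¬ ∃ h : s < runs.length, ∃ p ∈ (runs[s]).2, ZM B p.1 :=
    ⟨Nat.find hex, Nat.find_spec hex, fun s hs => Nat.find_min hex hs⟩
  have hRr := hR _ (List.getElem_mem hr)
  unfold runOK at hRr
  rw [Bool.and_eq_true, List.all_eq_true, List.all_eq_true] at hRr
  have h1 := hRr.1 p hp
  rw [Bool.and_eq_true, Bool.and_eq_true] at h1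
  obtain ⟨⟨hp2048, hprep⟩, hpG⟩ := h1
  have hp2048' := blt_true hp2048
  have hprep' := beq_true hprep
  have hpG' := blt_true hpG
  rw [List.getD_eq_getElem _ _ hpG'] at hprep'
  obtain ⟨g, hgdef⟩ : ∃ g, g = G[p.2] := ⟨_, rfl⟩
  rw [← hgdef] at hprep'
  have hgG : g ∈ G := by
    rw [hgdef]
    exact List.getElem_mem hpG'
  have hg := hG _ hgG
  unfold gOK at hg
  rw [Bool.and_eq_true, Bool.and_eq_true, Bool.and_eq_true, Bool.and_eq_true] at hg
  obtain ⟨⟨⟨⟨hok, h11⟩, hg11⟩, hg12⟩, hrel⟩ := hg
  have hlen : g.length = 13 := by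
    unfold okPerm at hok
    rw [Bool.and_eq_true] at hok
    exact beq_true hok.1
  obtain ⟨σ, hσ⟩ : ∃ σ, σ = permOf g hok := ⟨_, rfl⟩
  have hval : valL σ = g := by rw [hσ, valL_permOf]
  have hfix : ∀ i : Fin 13, g.getD i.val 0 = i.val → σ i = i := by
    intro i hi
    have h2 := permOf_apply hok i
    rw [List.getD_eq_getElem?_getD, h2, Option.getD_some] at hi
    rw [hσ]
    exact Fin.ext hi
  have h12 : σ 12 = 12 := hfix 12 (beq_true hg12)
  have h11' : σ 11 = 11 := hfix 11 (beq_true hg11)
  have hkeep : Keeps 11 σ := by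
    rw [hσ]
    exact keeps_permOf hok h11
  have hsub : ∀ s ∈ link (link B 12) 11, Sub 11 3 s := by
    intro s hs
    rw [mem_link_link] at hs
    obtain ⟨ha, hb, -, hc⟩ := hs
    refine ⟨mk_lt_iff.2 fun a has => ?_, ?_⟩
    · have h2 : a.val ≠ 12 := fun h => ha ((Fin.ext h : a = 12) ▸ has)
      have h3 : a.val ≠ 11 := fun h => hb ((Fin.ext h : a = 11) ▸ has)
      omega
    · have h2 := hB.1 _ hc
      rw [card_insert_of_notMem, card_insert_of_notMem hb] at h2
      · omega
      · rw [mem_insert]
        rintro (h | h)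
        · exact absurd h (by decide)
        · exact ha h
  refine ⟨σ, by rw [hval]; exact hgG, h12, h11', ?_, r, hr, ?_, ?_⟩
  · have h2 : link (link (mapF σ B) 12) 11 = mapF σ (link (link B 12) 11) := by
      conv_lhs => rw [← h12, link_mapF, ← h11', link_mapF]
    rw [h2, enc_mapF_relab (by norm_num) hkeep hsub, hT, hval]
    exact beq_true hrel
  · have h2 := (ZM_mapF hB h12 hp2048').2 hpz
    rw [hval, hprep'] at h2
    exact h2
  · intro s hs q hq hqz
    have hRs := hR _ (List.getElem_mem (hs.trans hr))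
    unfold runOK at hRs
    rw [Bool.and_eq_true, List.all_eq_true, List.all_eq_true] at hRs
    -- q is the image of some q' of the same orbit
    have hclosed := hRs.2 g hgG
    rw [List.all_eq_true] at hclosed
    -- the set of masks of the orbit is finite and the map is injective, hence surjective
    have hsurj : ∃ q' ∈ (runs[s]'(hs.trans hr)).2, pmM g q'.1 = q.1 := by
      have hfin : ∀ x ∈ ((runs[s]'(hs.trans hr)).2.map Prod.fst).toFinset,
          pmM g x ∈ ((runs[s]'(hs.trans hr)).2.map Prod.fst).toFinset := by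
        intro x hx
        rw [List.mem_toFinset, List.mem_map] at hx
        obtain ⟨y, hy, rfl⟩ := hx
        have h3 := hclosed y hy
        rw [List.any_eq_true] at h3
        obtain ⟨z, hz', h4⟩ := h3
        rw [List.mem_toFinset, List.mem_map]
        exact ⟨z, hz', (beq_true h4).symm⟩
      have hinj : Set.InjOn (pmM g)
          (((runs[s]'(hs.trans hr)).2.map Prod.fst).toFinset : Set ℕ) := by
        intro x hx y hy hxy
        rw [mem_coe, List.mem_toFinset, List.mem_map] at hx hy
        obtain ⟨x', hx', rfl⟩ := hx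
        obtain ⟨y', hy', rfl⟩ := hy
        have h3 := hRs.1 x' hx'
        have h4 := hRs.1 y' hy'
        rw [Bool.and_eq_true, Bool.and_eq_true] at h3 h4
        have h5 := blt_true h3.1.1
        have h6 := blt_true h4.1.1
        refine ofMask_injOn (by omega) (by omega) ?_
        refine mapS_injective σ ?_
        rw [← ofMask_pmM, ← ofMask_pmM, hval, hxy]
      have h3 := Finset.surj_on_of_inj_on_of_card_le
        (s := ((runs[s]'(hs.trans hr)).2.map Prod.fst).toFinset)
        (t := ((runs[s]'(hs.trans hr)).2.map Prod.fst).toFinset)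
        (fun x _ => pmM g x) (fun x hx => hfin x hx)
        (fun x y hx hy h => hinj (mem_coe.2 hx) (mem_coe.2 hy) h) le_rfl q.1
        (List.mem_toFinset.2 (List.mem_map.2 ⟨q, hq, rfl⟩))
      obtain ⟨x, hx, hxq⟩ := h3
      rw [List.mem_toFinset, List.mem_map] at hx
      obtain ⟨q', hq', rfl⟩ := hx
      exact ⟨q', hq', hxq.symm⟩
    obtain ⟨q', hq', hq2⟩ := hsurj
    have h3 := hRs.1 q' hq'
    rw [Bool.and_eq_true, Bool.and_eq_true] at h3
    have h4 := blt_true h3.1.1
    rw [← hq2, ← hval] at hqz
    exact hmin s hs ⟨hs.trans hr, q', hq', (ZM_mapF hB h12 h4).1 hqz⟩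

/-- **normal form**: some permutation fixing `12`, `11` and the pair link `T` brings a zero pair
to the representative of the first run which contains one -/
theorem exists_run {T : ℕ} {G : List (List ℕ)} {runs : List (ℕ × List (ℕ × ℕ))} {k : ℕ}
    (hG : G.all (gOK T) = true) (hR : runs.all (runOK G) = true)
    (hC : coverOK runs (11 - k) = true)
    {B : Finset (Finset (Fin 13))} (hB : OddCover B) (hk : MM B 12 ≤ k)
    (hT : enc 11 3 (link (link B 12) 11) = T) :
    ∃ σ : Equiv.Perm (Fin 13), σ 12 = 12 ∧ σ 11 = 11 ∧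
      enc 11 3 (link (link (mapF σ B) 12) 11) = T ∧
      ∃ r, ∃ h : r < runs.length, ZM (mapF σ B) (runs[r]).1 ∧
        ∀ s, ∀ hs : s < r, ∀ p ∈ (runs[s]'(hs.trans h)).2, ¬ ZM (mapF σ B) p.1 := by
  obtain ⟨σ, -, h⟩ := exists_run' hG hR hC hB hk hT
  exact ⟨σ, h⟩

end Pool.Agent.Helper67.TY
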