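import Pool.Agent.Helper79.CV.Link

/-!
MP_8ee768_co, project TH-Y': zero points of a light vertex.

`zeros B x` = the points `y ≠ x` with `mm B x y = 0`. A vertex with `MM B x ≤ k` has at least
`12 - k` zero points; each zero point `y` lies with `x` in exactly one bad quad; a light vertex
has two zero points `y`, `z` such that no quad through `x, y, z` is bad, hence the triple link
of `x, y, z` has exactly five pairs.
-/

set_option autoImplicit false

namespace Pool.Agent.Helper67.TY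

open Finset
open Pool.Agent.Helper89.CV (OddCover)
open Pool.Agent.Helper97.CV

/-- the zero points of `x` -/
def zeros (B : Finset (Finset (Fin 13))) (x : Fin 13) : Finset (Fin 13) :=
  (({x} : Finset (Fin 13))ᶜ).filter (fun y => mm B x y = 0)

theorem mem_zeros {B : Finset (Finset (Fin 13))} {x y : Fin 13} :
    y ∈ zeros B x ↔ x ≠ y ∧ mm B x y = 0 := by
  unfold zeros
  rw [mem_filter, mem_compl, mem_singleton]
  exact ⟨fun h => ⟨fun h2 => h.1 h2.symm, h.2⟩, fun h => ⟨fun h2 => h.1 h2.symm, h.2⟩⟩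

theorem zeros_card (B : Finset (Finset (Fin 13))) (x : Fin 13) :
    12 ≤ (zeros B x).card + MM B x := by
  have h1 : (({x} : Finset (Fin 13))ᶜ).card = 12 := by
    rw [card_compl, card_singleton, Fintype.card_fin]
  have h2 := card_filter_add_card_filter_not (s := ({x} : Finset (Fin 13))ᶜ)
    (p := fun y => mm B x y = 0)
  have h3 : ((({x} : Finset (Fin 13))ᶜ).filter (fun y => ¬ mm B x y = 0)).card ≤ MM B x := by
    unfold MM
    rw [card_eq_sum_ones, sum_filter]
    refine sum_le_sum fun v _ => ?_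
    by_cases h : mm B x v = 0
    · simp [h]
    · rw [if_pos h]
      omega
  have h4 : (zeros B x).card =
      ((({x} : Finset (Fin 13))ᶜ).filter (fun y => mm B x y = 0)).card := rfl
  omega

/-- a zero point lies with `x` in exactly one bad quad, and its excess is one -/
theorem exists_bad {B : Finset (Finset (Fin 13))} (hB : OddCover B) {x y : Fin 13}
    (hxy : x ≠ y) (h0 : mm B x y = 0) :
    ∃ Q : Finset (Fin 13), Q.card = 4 ∧ x ∈ Q ∧ y ∈ Q ∧ ex B Q = 1 ∧
      ∀ q : Finset (Fin 13), q.card = 4 → x ∈ q → y ∈ q → q ≠ Q → ex B q = 0 := by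
  have h1 : Lam B {x, y} = 1 := by
    rw [Lam_pair hB hxy, h0]
  unfold Lam LamW at h1
  have h2 : ∃ Q ∈ quads.filter (fun q => ({x, y} : Finset (Fin 13)) ⊆ q), ex B Q ≠ 0 := by
    by_contra h
    push Not at h
    rw [sum_eq_zero h] at h1
    omega
  obtain ⟨Q, hQ, hne⟩ := h2
  have h3 := add_sum_erase _ (ex B) hQ
  rw [h1] at h3
  have h4 : ex B Q = 1 := by omega
  have h5 : ∑ q ∈ (quads.filter (fun q => ({x, y} : Finset (Fin 13)) ⊆ q)).erase Q, ex B q = 0 := by
    omega
  rw [sum_eq_zero_iff] at h5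
  rw [mem_filter, mem_quads] at hQ
  refine ⟨Q, hQ.1, hQ.2 (mem_insert_self x _), hQ.2 (mem_insert_of_mem (mem_singleton_self y)),
    h4, ?_⟩
  intro q hq hx hy hqQ
  refine h5 q (mem_erase.2 ⟨hqQ, mem_filter.2 ⟨mem_quads.2 hq, ?_⟩⟩)
  intro a ha
  rcases mem_insert.1 ha with h | h
  · rw [h]
    exact hx
  · rw [mem_singleton.1 h]
    exact hy

/-- the count of a triple in terms of its excess -/
theorem cnt_triple3 {B : Finset (Finset (Fin 13))} (hB : OddCover B) {x y z : Fin 13}
    (hxy : x ≠ y) (hxz : x ≠ z) (hyz : y ≠ z) :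
    cnt B {x, y, z} = 5 + Lam B {x, y, z} := by
  refine cnt_triple hB ?_
  rw [card_insert_of_notMem, card_pair hyz]
  rw [mem_insert, mem_singleton]
  rintro (h | h)
  · exact hxy h
  · exact hxz h

/-- two zero points in no common bad quad with `x`: the second one can be taken in any set `S`
of zero points with at least four elements containing the first one -/
theorem exists_second {B : Finset (Finset (Fin 13))} (hB : OddCover B) {x y : Fin 13}
    {S : Finset (Fin 13)} (hS : S ⊆ zeros B x) (hy : y ∈ S) (h4 : 4 ≤ S.card) :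
    ∃ z ∈ S, y ≠ z ∧ Lam B {x, y, z} = 0 ∧
      ∀ q : Finset (Fin 13), q.card = 4 → x ∈ q → y ∈ q → z ∈ q → ex B q = 0 := by
  obtain ⟨hxy, h0⟩ := mem_zeros.1 (hS hy)
  obtain ⟨Q, hQ4, hxQ, hyQ, -, hQ⟩ := exists_bad hB hxy h0
  have hxS : x ∉ S := fun h => (mem_zeros.1 (hS h)).1 rfl
  have h1 : (S \ Q).Nonempty := by
    by_contra h
    rw [not_nonempty_iff_eq_empty, sdiff_eq_empty_iff_subset] at h
    have h2 : S ⊆ Q.erase x := fun a ha => mem_erase.2 ⟨fun h3 => hxS (h3 ▸ ha), h ha⟩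
    have h3 := card_le_card h2
    rw [card_erase_of_mem hxQ] at h3
    omega
  obtain ⟨z, hz⟩ := h1
  rw [mem_sdiff] at hz
  have hne : y ≠ z := fun h => hz.2 (h ▸ hyQ)
  have h3 : ∀ q : Finset (Fin 13), q.card = 4 → x ∈ q → y ∈ q → z ∈ q → ex B q = 0 :=
    fun q hq hx hy' hz' => hQ q hq hx hy' (fun h => hz.2 (h ▸ hz'))
  refine ⟨z, hz.1, hne, ?_, h3⟩
  unfold Lam LamW
  refine sum_eq_zero fun q hq => ?_
  rw [mem_filter, mem_quads] at hq
  exact h3 q hq.1 (hq.2 (mem_insert_self _ _))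
    (hq.2 (mem_insert_of_mem (mem_insert_self _ _)))
    (hq.2 (mem_insert_of_mem (mem_insert_of_mem (mem_singleton_self _))))

/-- a light vertex has two zero points in no common bad quad; the triple link has five pairs -/
theorem exists_frame {B : Finset (Finset (Fin 13))} (hB : OddCover B) {x : Fin 13}
    (h6 : MM B x ≤ 6) :
    ∃ y z : Fin 13, x ≠ y ∧ x ≠ z ∧ y ≠ z ∧ mm B x y = 0 ∧ mm B x z = 0 ∧
      Lam B {x, y, z} = 0 ∧ cnt B {x, y, z} = 5 := by
  have h1 := zeros_card B x
  have h2 : (zeros B x).Nonempty := card_pos.1 (by omega)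
  obtain ⟨y, hy⟩ := h2
  obtain ⟨z, hz, hyz, h3, -⟩ := exists_second hB (subset_refl (zeros B x)) hy (by omega)
  obtain ⟨hxy, hy0⟩ := mem_zeros.1 hy
  obtain ⟨hxz, hz0⟩ := mem_zeros.1 hz
  refine ⟨y, z, hxy, hxz, hyz, hy0, hz0, h3, ?_⟩
  rw [cnt_triple3 hB hxy hxz hyz, h3]

end Pool.Agent.Helper67.TY
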